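import Pool.Agent.V8H41.CE.Fwd

/-!
# From a coalition-exchange-stable matching to an exact cover
-/

namespace Pool.Agent.V8H41.CE

open Pool.Agent.NPC.H632 (el X3C X3CPr)

variable {S : List (ℕ × ℕ × ℕ)} {q : ℕ}

/-- A matching given by the functions for the wives and the husbands, stable on the side of the
men, in which man `0` has woman `0`. -/
structure St (S : List (ℕ × ℕ × ℕ)) (q : ℕ) (p h : ℕ → ℕ) : Prop where
  p_lt : ∀ a, a < cn S.length q → p a < cn S.length q
  h_lt : ∀ w, w < cn S.length q → h w < cn S.length q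
  ph : ∀ w, w < cn S.length q → p (h w) = w
  hp : ∀ a, a < cn S.length q → h (p a) = a
  p0 : p 0 = 0
  nb : ¬ Blocked (inst S q).1 p

variable {p h : ℕ → ℕ}

/-- reachability from man `0` in the envy graph -/
def RB (S : List (ℕ × ℕ × ℕ)) (q : ℕ) (p : ℕ → ℕ) (b : ℕ) : Prop :=
  Relation.TransGen (Envy (inst S q).1 p) 0 b

theorem RB.lt {b : ℕ} (hb : RB S q p b) : b < cn S.length q := by
  unfold RB at hb
  rw [Relation.TransGen.tail'_iff] at hb
  obtain ⟨c, -, hc⟩ := hb
  have := hc.2.1
  rwa [length_inst] at this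

theorem St.ne_zero (hs : St S q p h) {b : ℕ} (hb : RB S q p b) : b ≠ 0 := by
  rintro rfl
  exact not_transGen hs.nb 0 hb

theorem RB.step {b c : ℕ} (hb : RB S q p b) (hc : c < cn S.length q)
    (hpr : (ml S q b).idxOf (p c) < (ml S q b).idxOf (p b)) : RB S q p c := by
  refine Relation.TransGen.tail hb ⟨?_, ?_, (prefers_inst hb.lt).2 hpr⟩
  · rw [length_inst]; exact hb.lt
  · rw [length_inst]; exact hc

theorem St.p_ne_zero (hs : St S q p h) {b : ℕ} (hb : b < cn S.length q) (hb0 : b ≠ 0) :
    p b ≠ 0 := by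
  intro h0
  have h1 := hs.hp b hb
  have h2 := hs.hp 0 (by unfold cn; omega)
  rw [hs.p0] at h2
  rw [h0, h2] at h1
  exact hb0 h1.symm

theorem St.mem_top (hs : St S q p h) {b : ℕ} (hb : RB S q p b) : p b ∈ topA S q b := by
  by_contra hcon
  have h1 := mkL_pref_zero (n := cn S.length q) (zero_notMem_topA S q b) hcon
    (hs.p_ne_zero hb.lt (hs.ne_zero hb))
  have h2 : RB S q p 0 := hb.step (by unfold cn; omega) (by rw [hs.p0]; exact h1)
  exact hs.ne_zero h2 rfl

/-- The holders of the elements are reachable. -/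
theorem St.elem_rb (hs : St S q p h) {e : ℕ} (he : e < 3 * q) : RB S q p (h (1 + e)) := by
  have hn : 1 + e < cn S.length q := by unfold cn; omega
  have hn0 : 0 < cn S.length q := by omega
  refine Relation.TransGen.single ⟨?_, ?_, (prefers_inst hn0).2 ?_⟩
  · rw [length_inst]; exact hn0
  · rw [length_inst]; exact hs.h_lt _ hn
  · rw [hs.ph _ hn, hs.p0]
    apply mkL_pref_mem
    · rw [topA_zero, List.mem_map]
      exact ⟨e, List.mem_range.2 he, rfl⟩
    · exact zero_notMem_topA S q 0

/-- The holder of an element is a man of this element. -/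
theorem St.elem_holder (hs : St S q p h) {e : ℕ} (he : e < 3 * q) :
    ∃ c, c < 3 * S.length ∧ h (1 + e) = 1 + S.length * cN S.length + c ∧ ec S c = e := by
  have hn : 1 + e < cn S.length q := by unfold cn; omega
  have hb := hs.elem_rb he
  have hm := hs.mem_top hb
  rw [hs.ph _ hn] at hm
  rcases man_cases S (h (1 + e)) with h0 | ⟨u, hu, h1⟩ | ⟨c, hc, h1⟩ | h1
  · exact absurd h0 (hs.ne_zero hb)
  · rw [h1, topA_beta hu, List.mem_append, List.mem_map, List.mem_singleton] at hm
    rcases hm with ⟨k, hk, hk'⟩ | hm <;> omega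
  · refine ⟨c, hc, h1, ?_⟩
    rw [h1, topA_elem hc, List.mem_append, List.mem_map, List.mem_singleton] at hm
    rcases hm with ⟨k, hk, hk'⟩ | hm <;> omega
  · rw [topA_dummy h1] at hm
    simp at hm

theorem mkL_pref_last {n : ℕ} {A : List ℕ} {x y : ℕ} (hx : x ∈ A) (hy : y ∉ A) :
    (mkL n (A ++ [y])).idxOf x < (mkL n (A ++ [y])).idxOf y := by
  unfold mkL
  rw [List.append_assoc, List.idxOf_append_of_mem hx, List.idxOf_append_of_notMem hy]
  have := List.idxOf_lt_length_of_mem hx
  omega

/-- The element men who have their element. -/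
def KB (S : List (ℕ × ℕ × ℕ)) (p : ℕ → ℕ) : Finset ℕ :=
  (Finset.range (3 * S.length)).filter fun c =>
    p (1 + S.length * cN S.length + c) = 1 + ec S c

theorem mem_KB {c : ℕ} : c ∈ KB S p ↔ c < 3 * S.length ∧
    p (1 + S.length * cN S.length + c) = 1 + ec S c := by
  unfold KB
  rw [Finset.mem_filter, Finset.mem_range]

theorem St.KB_rb (hs : St S q p h) (hP : Pm S q) {c : ℕ} (hc : c ∈ KB S p) :
    RB S q p (1 + S.length * cN S.length + c) := by
  rw [mem_KB] at hc
  have h1 := hs.elem_rb (hP.ec_lt c hc.1)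
  have h2 := cn_ge hP
  rw [← hc.2, hs.hp _ (by omega)] at h1
  exact h1

/-- The holders of the women of a group with an element man having his element are reachable. -/
theorem St.group_rb (hs : St S q p h) (hP : Pm S q) {c i : ℕ} (hc : c ∈ KB S p)
    (hi : i < cN S.length) :
    RB S q p (h (1 + 3 * q + cG S.length q + (c / 3 * cN S.length + i))) := by
  have h1 := hs.KB_rb hP hc
  rw [mem_KB] at hc
  have h2 := group_lt hc.1 hi
  have h3 : 1 + 3 * q + cG S.length q + (c / 3 * cN S.length + i) < cn S.length q := by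
    unfold cn; omega
  refine h1.step (hs.h_lt _ h3) ?_
  rw [hs.ph _ h3, hc.2]
  unfold ml
  rw [topA_elem hc.1]
  apply mkL_pref_last
  · rw [List.mem_map]
    exact ⟨i, List.mem_range.2 hi, by omega⟩
  · rw [List.mem_map]
    rintro ⟨k, hk, hk'⟩
    have := hP.ec_lt c hc.1
    omega

theorem St.t_holder (hs : St S q p h) (hP : Pm S q) {u : ℕ} (hu : u < S.length * cN S.length)
    (hr : RB S q p (h (1 + 3 * q + cG S.length q + u))) :
    h (1 + 3 * q + cG S.length q + u) = 1 + u ∨
      ∃ c, c < 3 * S.length ∧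
        h (1 + 3 * q + cG S.length q + u) = 1 + S.length * cN S.length + c := by
  have h3 : 1 + 3 * q + cG S.length q + u < cn S.length q := by
    unfold cn; omega
  have hm := hs.mem_top hr
  rw [hs.ph _ h3] at hm
  rcases man_cases S (h (1 + 3 * q + cG S.length q + u)) with h0 | ⟨v, hv, h1⟩ | ⟨c, hc, h1⟩ | h1
  · exact absurd h0 (hs.ne_zero hr)
  · left
    rw [h1, topA_beta hv, List.mem_append, List.mem_map, List.mem_singleton] at hm
    rcases hm with ⟨k, hk, hk'⟩ | hm
    · rw [List.mem_range] at hk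
      omega
    · rw [h1]
      omega
  · exact Or.inr ⟨c, hc, h1⟩
  · rw [topA_dummy h1] at hm
    simp at hm

theorem St.gate_holder (hs : St S q p h) (hP : Pm S q) {u k : ℕ}
    (hu : u < S.length * cN S.length) (hr : RB S q p (1 + u))
    (hpu : p (1 + u) = 1 + 3 * q + cG S.length q + u) (hk : k < cG S.length q) :
    ∃ v, v < S.length * cN S.length ∧ h (1 + 3 * q + k) = 1 + v := by
  have h3 : 1 + 3 * q + k < cn S.length q := by
    unfold cn; omega
  have hr' : RB S q p (h (1 + 3 * q + k)) := by
    refine hr.step (hs.h_lt _ h3) ?_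
    rw [hs.ph _ h3, hpu]
    unfold ml
    rw [topA_beta hu]
    apply mkL_pref_last
    · rw [List.mem_map]
      exact ⟨k, List.mem_range.2 hk, rfl⟩
    · rw [List.mem_map]
      rintro ⟨l, hl, hl'⟩
      rw [List.mem_range] at hl
      omega
  have hm := hs.mem_top hr'
  rw [hs.ph _ h3] at hm
  rcases man_cases S (h (1 + 3 * q + k)) with h0 | ⟨v, hv, h1⟩ | ⟨c, hc, h1⟩ | h1
  · exact absurd h0 (hs.ne_zero hr')
  · exact ⟨v, hv, h1⟩
  · rw [h1, topA_elem hc, List.mem_append, List.mem_map, List.mem_singleton] at hm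
    have := hP.ec_lt c hc
    rcases hm with ⟨l, hl, hl'⟩ | hm <;> omega
  · rw [topA_dummy h1] at hm
    simp at hm

theorem idx_inj {N j i j' i' : ℕ} (hi : i < N) (hi' : i' < N) (h : j * N + i = j' * N + i') :
    j = j' ∧ i = i' := by
  have hN : 0 < N := by omega
  have h1 : (j * N + i) / N = j := by
    rw [Nat.mul_comm, Nat.mul_add_div hN, Nat.div_eq_of_lt hi, Nat.add_zero]
  have h2 : (j' * N + i') / N = j' := by
    rw [Nat.mul_comm, Nat.mul_add_div hN, Nat.div_eq_of_lt hi', Nat.add_zero]
  have h3 : j = j' := by rw [← h1, h, h2]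
  subst h3
  exact ⟨rfl, by omega⟩

theorem St.card_le (hs : St S q p h) (hP : Pm S q) :
    ((KB S p).image (fun c => c / 3)).card ≤ q := by
  classical
  set J := (KB S p).image (fun c => c / 3) with hJ
  set m := S.length with hm
  set N := cN m with hN
  set G := cG m q with hG
  have hNm : N = 3 * m + 1 := rfl
  have hGm : G = (m - q) * N := rfl
  by_contra hcon
  push Not at hcon
  have hJK : ∀ j ∈ J, ∃ c ∈ KB S p, c / 3 = j := by
    intro j hj
    rw [hJ, Finset.mem_image] at hj
    exact hj
  have hJlt : ∀ j ∈ J, j < m := by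
    intro j hj
    obtain ⟨c, hc, rfl⟩ := hJK j hj
    rw [mem_KB] at hc
    omega
  set T := J ×ˢ Finset.range N with hT
  have hTc : T.card = J.card * N := by rw [hT, Finset.card_product, Finset.card_range]
  have hTu : ∀ t ∈ T, t.1 * N + t.2 < m * N ∧
      RB S q p (h (1 + 3 * q + G + (t.1 * N + t.2))) := by
    intro t ht
    rw [hT, Finset.mem_product, Finset.mem_range] at ht
    obtain ⟨c, hc, hct⟩ := hJK _ ht.1
    rw [← hct]
    exact ⟨group_lt (mem_KB.1 hc).1 ht.2, hs.group_rb hP hc ht.2⟩
  have hTinj : ∀ t ∈ T, ∀ t' ∈ T, t.1 * N + t.2 = t'.1 * N + t'.2 → t = t' := by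
    intro t ht t' ht' htt
    rw [hT, Finset.mem_product, Finset.mem_range] at ht ht'
    obtain ⟨h1, h2⟩ := idx_inj ht.2 ht'.2 htt
    exact Prod.ext h1 h2
  set good : ℕ × ℕ → Prop := fun t => h (1 + 3 * q + G + (t.1 * N + t.2)) = 1 + (t.1 * N + t.2)
    with hgood
  have hsplit := Finset.card_filter_add_card_filter_not (s := T) good
  set Y := (Finset.range (m * N)).filter (fun u => p (1 + u) = 1 + 3 * q + G + u) with hY
  set X := (Finset.range (m * N)).filter (fun u => p (1 + u) < 1 + 3 * q + G) with hX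
  have hXY : X.card + Y.card ≤ m * N := by
    rw [← Finset.card_union_of_disjoint]
    · refine (Finset.card_le_card ?_).trans (Finset.card_range (m * N)).le
      exact Finset.union_subset (Finset.filter_subset _ _) (Finset.filter_subset _ _)
    · rw [Finset.disjoint_left]
      intro u hu hu'
      rw [hX, Finset.mem_filter] at hu
      rw [hY, Finset.mem_filter] at hu'
      omega
  have hwlt : ∀ t ∈ T, 1 + 3 * q + G + (t.1 * N + t.2) < cn m q := by
    intro t ht
    have := (hTu t ht).1
    change _ < 1 + 3 * q + G + m * N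
    omega
  have hbad : (T.filter (fun t => ¬ good t)).card ≤ 3 * m := by
    have hsub : ∀ t ∈ T.filter (fun t => ¬ good t), ∃ c, c < 3 * m ∧
        h (1 + 3 * q + G + (t.1 * N + t.2)) = 1 + m * N + c := by
      intro t ht
      rw [Finset.mem_filter] at ht
      rcases hs.t_holder hP (hTu t ht.1).1 (hTu t ht.1).2 with h1 | h1
      · exact absurd h1 ht.2
      · exact h1
    rw [← Finset.card_range (3 * m)]
    refine Finset.card_le_card_of_injOn
      (fun t => h (1 + 3 * q + G + (t.1 * N + t.2)) - (1 + m * N)) ?_ ?_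
    · intro t ht
      obtain ⟨c, hc, hc'⟩ := hsub t ht
      simp only [Finset.coe_range, Set.mem_Iio]
      omega
    · intro t ht t' ht' htt
      obtain ⟨c, hc, hc'⟩ := hsub t ht
      obtain ⟨d, hd, hd'⟩ := hsub t' ht'
      dsimp only at htt
      have h1 : h (1 + 3 * q + G + (t.1 * N + t.2)) = h (1 + 3 * q + G + (t'.1 * N + t'.2)) := by
        omega
      have ht1 := (Finset.mem_filter.1 ht).1
      have ht2 := (Finset.mem_filter.1 ht').1
      have h2 := hs.ph _ (hwlt t ht1)
      rw [h1, hs.ph _ (hwlt t' ht2)] at h2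
      exact hTinj t ht1 t' ht2 (by omega)
  have hgd : (T.filter good).card ≤ Y.card := by
    refine Finset.card_le_card_of_injOn (fun t => t.1 * N + t.2) ?_ ?_
    · intro t ht
      have ht' := Finset.mem_filter.1 ht
      have h1 := hs.ph _ (hwlt t ht'.1)
      rw [ht'.2] at h1
      rw [hY]
      simp only [Finset.coe_filter, Finset.mem_range, Set.mem_setOf_eq]
      exact ⟨(hTu t ht'.1).1, h1⟩
    · intro t ht t' ht' htt
      exact hTinj t (Finset.mem_filter.1 ht).1 t' (Finset.mem_filter.1 ht').1 htt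
  have hJN : (q + 1) * N ≤ J.card * N := Nat.mul_le_mul_right N hcon
  rw [Nat.add_mul, Nat.one_mul] at hJN
  have hpos : 0 < (T.filter good).card := by
    rw [hTc] at hsplit
    omega
  obtain ⟨t, ht⟩ := Finset.card_pos.1 hpos
  have ht' := Finset.mem_filter.1 ht
  have hu := (hTu t ht'.1).1
  have hr := (hTu t ht'.1).2
  have hpu := hs.ph _ (hwlt t ht'.1)
  rw [ht'.2] at hr hpu
  have hXG : G ≤ X.card := by
    rw [← Finset.card_range G]
    have hk : ∀ k, k < G → ∃ v, v < m * N ∧ h (1 + 3 * q + k) = 1 + v := fun k hk =>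
      hs.gate_holder hP hu hr hpu hk
    have hklt : ∀ k, k < G → 1 + 3 * q + k < cn m q := by
      intro k hk
      change _ < 1 + 3 * q + G + m * N
      omega
    refine Finset.card_le_card_of_injOn (fun k => h (1 + 3 * q + k) - 1) ?_ ?_
    · intro k hk'
      have hk'' : k < G := by simpa using hk'
      obtain ⟨v, hv, hv'⟩ := hk k hk''
      rw [hX]
      simp only [Finset.coe_filter, Finset.mem_range, Set.mem_setOf_eq]
      have h2 := hs.ph _ (hklt k hk'')
      have h3 : h (1 + 3 * q + k) - 1 = v := by omega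
      rw [h3, ← hv', h2]
      exact ⟨hv, by omega⟩
    · intro k hk' k' hk2 hkk
      have hk1 : k < G := by simpa using hk'
      have hk2 : k' < G := by simpa using hk2
      obtain ⟨v, hv, hv'⟩ := hk k hk1
      obtain ⟨v2, hv2, hv2'⟩ := hk k' hk2
      dsimp only at hkk
      have h1 : h (1 + 3 * q + k) = h (1 + 3 * q + k') := by omega
      have h2 := hs.ph _ (hklt k hk1)
      rw [h1, hs.ph _ (hklt k' hk2)] at h2
      omega
  have hmq : m * N = G + q * N := by
    rw [hGm, ← Nat.add_mul, Nat.sub_add_cancel hP.le_len]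
  rw [hTc] at hsplit
  omega

theorem St.x3c (hs : St S q p h) (hP : Pm S q) : X3C (S, q) := by
  classical
  set J := (KB S p).image (fun c => c / 3) with hJ
  have hJlt : ∀ j ∈ J.toList, j < S.length := by
    intro j hj
    rw [Finset.mem_toList, hJ, Finset.mem_image] at hj
    obtain ⟨c, hc, rfl⟩ := hj
    rw [mem_KB] at hc
    omega
  refine ⟨J.toList.map (fun j => S.getD j (0, 0, 0)), ?_, ?_⟩
  · intro t ht
    rw [List.mem_map] at ht
    obtain ⟨j, hj, rfl⟩ := ht
    rw [List.getD_eq_getElem _ _ (hJlt j hj)]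
    exact List.getElem_mem _
  · dsimp only
    rw [← flatMap_idx S _ hJlt]
    symm
    refine (List.subperm_of_subset List.nodup_range ?_).perm_of_length_le ?_
    · intro e he
      rw [List.mem_range] at he
      obtain ⟨c, hc, hc', hce⟩ := hs.elem_holder he
      rw [List.mem_map]
      refine ⟨c, ?_, hce⟩
      rw [mem_idx, Finset.mem_toList, hJ, Finset.mem_image]
      refine ⟨c, ?_, rfl⟩
      rw [mem_KB]
      refine ⟨hc, ?_⟩
      rw [← hc', hce]
      exact hs.ph _ (by unfold cn; omega)
    · rw [List.length_map, length_idx, Finset.length_toList, List.length_range]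
      have : J.card ≤ q := hs.card_le hP
      omega

theorem x3c_of_stable (hP : Pm S q) {M : List ℕ} (hM : CEStable (inst S q) M) :
    X3C (S, q) := by
  set n := cn S.length q with hn
  have hn0 : 0 < n := by rw [hn]; unfold cn; omega
  obtain ⟨h1, h2, h3⟩ := hM
  rw [length_inst, ← hn] at h1
  have hlen : M.length = n := by rw [h1.length_eq, List.length_range]
  have hnod : M.Nodup := h1.nodup_iff.2 List.nodup_range
  have hmem : ∀ w, w < n → w ∈ M := fun w hw => h1.mem_iff.2 (List.mem_range.2 hw)
  have hph : ∀ w, w < n → M.getD (M.idxOf w) 0 = w := by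
    intro w hw
    rw [List.getD_eq_getElem _ _ (List.idxOf_lt_length_of_mem (hmem w hw))]
    exact List.getElem_idxOf _
  have hhp : ∀ a, a < n → M.idxOf (M.getD a 0) = a := by
    intro a ha
    rw [List.getD_eq_getElem _ _ (by omega)]
    exact hnod.idxOf_getElem _ _
  have hplt : ∀ a, a < n → M.getD a 0 < n := by
    intro a ha
    rw [List.getD_eq_getElem _ _ (by omega)]
    exact List.mem_range.1 (h1.mem_iff.1 (List.getElem_mem _))
  have hhlt : ∀ w, w < n → M.idxOf w < n := by
    intro w hw
    rw [← hlen]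
    exact List.idxOf_lt_length_of_mem (hmem w hw)
  have hp0 : M.getD 0 0 = 0 := by
    by_contra hcon
    apply h3
    have hw1 := hplt 0 hn0
    have hlen2 : (inst S q).2.length = n := by unfold inst; simp [hn]
    have hh0 : M.idxOf 0 ≠ 0 := by
      intro h0
      have := hph 0 hn0
      rw [h0] at this
      exact hcon this
    have e1 : M.idxOf (M.getD 0 0) = 0 := hhp 0 hn0
    refine ⟨0, ![0, M.getD 0 0], ?_, ?_, ?_⟩
    · intro i j hij
      fin_cases i <;> fin_cases j
      · rfl
      · exact absurd hij.symm hcon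
      · exact absurd hij hcon
      · rfl
    · intro i
      rw [hlen2]
      fin_cases i
      · exact hn0
      · exact hw1
    · intro i
      fin_cases i
      · change Prefers (inst S q).2 0 (M.idxOf (M.getD 0 0)) (M.idxOf 0)
        rw [prefers_inst' hn0, e1]
        unfold wl
        rw [if_pos rfl]
        have f1 := (List.nodup_range (n := cn S.length q)).idxOf_getElem 0 (by simpa using hn0)
        have f2 := (List.nodup_range (n := cn S.length q)).idxOf_getElem (M.idxOf 0)
          (by simpa using hhlt 0 hn0)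
        rw [List.getElem_range] at f1 f2
        rw [f1, f2]
        omega
      · change Prefers (inst S q).2 (M.getD 0 0) (M.idxOf 0) (M.idxOf (M.getD 0 0))
        rw [prefers_inst' hw1, e1, idxOf_wl hcon hh0 (hhlt 0 hn0), idxOf_wl_zero hcon hn0]
        have := hhlt 0 hn0
        omega
  exact St.x3c (p := fun m => M.getD m 0) (h := fun w => M.idxOf w)
    ⟨hplt, hhlt, hph, hhp, hp0, h2⟩ hP

theorem stable_iff (hP : Pm S q) : (∃ M, CEStable (inst S q) M) ↔ X3C (S, q) := by
  constructor
  · rintro ⟨M, hM⟩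
    exact x3c_of_stable hP hM
  · intro h
    obtain ⟨J, hJ⟩ := exists_cover h
    exact exists_stable hP hJ

end Pool.Agent.V8H41.CE
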