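import Pool.Agent.V8H41.CE.Defs

/-!
# Blocking coalitions and cycles, serial dictatorship
-/

namespace Pool.Agent.V8H41.CE

/-! ### Cycles -/

theorem exists_walk {α : Type} {E : α → α → Prop} {a b : α} (h : Relation.TransGen E a b) :
    ∃ (L : ℕ) (f : ℕ → α), 1 ≤ L ∧ f 0 = a ∧ f L = b ∧ ∀ i, i < L → E (f i) (f (i + 1)) := by
  induction h with
  | single h =>
    rename_i b
    refine ⟨1, fun i => if i = 0 then a else b, le_rfl, by simp, by simp, ?_⟩
    intro i hi
    have : i = 0 := by omega
    subst this
    simpa using h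
  | tail h1 h2 ih =>
    rename_i b c
    obtain ⟨L, f, hL, h0, hb, hf⟩ := ih
    refine ⟨L + 1, fun i => if i ≤ L then f i else c, by omega, by simp [h0], by simp, ?_⟩
    intro i hi
    by_cases h : i + 1 ≤ L
    · have h' : i ≤ L := by omega
      simp only [h, h', if_true]
      exact hf i (by omega)
    · have : i = L := by omega
      subst this
      simp only [le_refl, if_true, h, if_false]
      rw [hb]
      exact h2

theorem exists_cycle {α : Type} {E : α → α → Prop} (hirr : ∀ a, ¬ E a a) {a : α}
    (h : Relation.TransGen E a a) :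
    ∃ (k : ℕ) (c : Fin (k + 2) → α), Function.Injective c ∧ ∀ i, E (c i) (c (i + 1)) := by
  classical
  have hex : ∃ L : ℕ, 1 ≤ L ∧ ∃ f : ℕ → α, f L = f 0 ∧ ∀ i, i < L → E (f i) (f (i + 1)) := by
    obtain ⟨L, f, hL, h0, hb, hf⟩ := exists_walk h
    exact ⟨L, hL, f, hb.trans h0.symm, hf⟩
  set L := Nat.find hex with hLdef
  obtain ⟨hL, f, hf0, hf⟩ := Nat.find_spec hex
  rw [← hLdef] at hL hf0 hf
  have hmin : ∀ L', L' < L → ¬ (1 ≤ L' ∧ ∃ f : ℕ → α, f L' = f 0 ∧
      ∀ i, i < L' → E (f i) (f (i + 1))) := fun L' h' => Nat.find_min hex h'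
  have hinj : ∀ i j, i < j → j < L → f i ≠ f j := by
    intro i j hij hj heq
    refine hmin (j - i) (by omega) ⟨by omega, fun t => f (i + t), ?_, ?_⟩
    · dsimp only
      rw [show i + (j - i) = j by omega, Nat.add_zero, heq]
    · intro t ht
      exact hf (i + t) (by omega)
  have hL2 : 2 ≤ L := by
    by_contra hlt
    have h1 : L = 1 := by omega
    have h2 := hf 0 (by omega)
    rw [h1] at hf0
    rw [Nat.zero_add, hf0] at h2
    exact hirr _ h2
  clear_value L
  obtain ⟨k, rfl⟩ : ∃ k, L = k + 2 := ⟨L - 2, by omega⟩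
  refine ⟨k, fun i => f i, ?_, ?_⟩
  · intro i j hij
    dsimp only at hij
    by_contra hne
    rcases lt_or_gt_of_ne (fun h => hne (Fin.ext h)) with h' | h'
    · exact hinj _ _ h' j.2 hij
    · exact hinj _ _ h' i.2 hij.symm
  · intro i
    dsimp only
    by_cases h' : (i : ℕ) + 1 < k + 2
    · have h1 : ((i + 1 : Fin (k + 2)) : ℕ) = i + 1 := by
        rw [Fin.val_add, Fin.val_one, Nat.mod_eq_of_lt h']
      rw [h1]
      exact hf i i.2
    · have h2 : (i : ℕ) + 1 = k + 2 := by
        have := i.2
        omega
      have h1 : ((i + 1 : Fin (k + 2)) : ℕ) = 0 := by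
        rw [Fin.val_add, Fin.val_one, h2, Nat.mod_self]
      have h3 := hf i i.2
      rw [h2] at h3
      rw [h1, ← hf0]
      exact h3

/-- The envy relation. -/
def Envy (P : List (List ℕ)) (p : ℕ → ℕ) (a b : ℕ) : Prop :=
  a < P.length ∧ b < P.length ∧ Prefers P a (p b) (p a)

theorem Envy.irrefl (P : List (List ℕ)) (p : ℕ → ℕ) (a : ℕ) : ¬ Envy P p a a :=
  fun h => lt_irrefl _ h.2.2

theorem not_transGen {P : List (List ℕ)} {p : ℕ → ℕ} (h : ¬ Blocked P p) (a : ℕ) :
    ¬ Relation.TransGen (Envy P p) a a := by
  intro ha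
  obtain ⟨k, c, hc, hE⟩ := exists_cycle (Envy.irrefl P p) ha
  exact h ⟨k, c, hc, fun i => (hE i).1, fun i => (hE i).2.2⟩

/-- No blocking coalition if envy decreases a rank. -/
theorem not_blocked {P : List (List ℕ)} {p : ℕ → ℕ} (r : ℕ → ℕ)
    (h : ∀ a b, a < P.length → b < P.length → Prefers P a (p b) (p a) → r b < r a) :
    ¬ Blocked P p := by
  rintro ⟨k, a, -, ha, hp⟩
  obtain ⟨i, hi⟩ := Finite.exists_min (fun i => r (a i))
  have h1 := h _ _ (ha i) (ha (i + 1)) (hp i)
  have h2 : r (a i) ≤ r (a (i + 1)) := hi (i + 1)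
  omega

/-! ### Serial dictatorship -/

/-- A partial assignment obtained by a serial dictatorship: the men in `D` have chosen, `f` gives
their choices and `r` the time of the choices. -/
structure SD (P : List (List ℕ)) (D : Finset ℕ) (f r : ℕ → ℕ) : Prop where
  sub : ∀ a ∈ D, a < P.length
  lt : ∀ a ∈ D, f a < P.length
  inj : ∀ a ∈ D, ∀ b ∈ D, f a = f b → a = b
  pref : ∀ a ∈ D, ∀ x, x < P.length → Prefers P a x (f a) → ∃ b ∈ D, f b = x ∧ r b < r a

theorem SD.step {P : List (List ℕ)} (hP : ∀ l ∈ P, l.Perm (List.range P.length))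
    {D : Finset ℕ} {f r : ℕ → ℕ} (h : SD P D f r) (hD : D.card < P.length) :
    ∃ a f' r', a ∉ D ∧ SD P (insert a D) f' r' ∧ ∀ b ∈ D, f' b = f b := by
  classical
  obtain ⟨a, ha, haD⟩ : ∃ a, a < P.length ∧ a ∉ D := by
    by_contra hcon
    push Not at hcon
    have h1 : Finset.range P.length ⊆ D := fun a ha => hcon a (Finset.mem_range.1 ha)
    have h2 := Finset.card_le_card h1
    rw [Finset.card_range] at h2
    omega
  set l := P.getD a [] with hl
  have hlP : l.Perm (List.range P.length) := by
    apply hP
    rw [hl, List.getD_eq_getElem _ _ ha]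
    exact List.getElem_mem ha
  have hex : ∃ i, i < P.length ∧ ∀ b ∈ D, f b ≠ l.getD i 0 := by
    by_contra hcon
    push Not at hcon
    have h1 : Finset.range P.length ⊆ D.image f := by
      intro x hx
      have hx' : x ∈ l := hlP.mem_iff.2 (List.mem_range.2 (Finset.mem_range.1 hx))
      obtain ⟨i, hi, rfl⟩ := List.getElem_of_mem hx'
      have hi' : i < P.length := by
        have := hlP.length_eq
        rw [List.length_range] at this
        omega
      obtain ⟨b, hb, hb'⟩ := hcon i hi'
      rw [List.getD_eq_getElem _ _ hi] at hb'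
      exact Finset.mem_image.2 ⟨b, hb, hb'⟩
    have h2 := Finset.card_le_card h1
    have h3 := Finset.card_image_le (s := D) (f := f)
    rw [Finset.card_range] at h2
    omega
  set i := Nat.find hex with hi
  obtain ⟨hi1, hi2⟩ := Nat.find_spec hex
  rw [← hi] at hi1 hi2
  have hlen : l.length = P.length := by
    rw [hlP.length_eq, List.length_range]
  have hil : i < l.length := by omega
  have hnod : l.Nodup := hlP.nodup_iff.2 List.nodup_range
  refine ⟨a, Function.update f a (l.getD i 0), Function.update r a (D.sup r + 1), haD, ?_, ?_⟩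
  · have hne : ∀ b ∈ D, b ≠ a := fun b hb hba => haD (hba ▸ hb)
    constructor
    · intro b hb
      rcases Finset.mem_insert.1 hb with rfl | hb
      · exact ha
      · exact h.sub b hb
    · intro b hb
      rcases Finset.mem_insert.1 hb with rfl | hb
      · rw [Function.update_self, List.getD_eq_getElem _ _ hil]
        exact List.mem_range.1 (hlP.mem_iff.1 (List.getElem_mem hil))
      · rw [Function.update_of_ne (hne b hb)]
        exact h.lt b hb
    · intro b hb c hc hbc
      rcases Finset.mem_insert.1 hb with hb' | hb' <;>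
        rcases Finset.mem_insert.1 hc with hc' | hc'
      · rw [hb', hc']
      · rw [hb', Function.update_self, Function.update_of_ne (hne c hc')] at hbc
        exact absurd hbc.symm (hi2 c hc')
      · rw [hc', Function.update_self, Function.update_of_ne (hne b hb')] at hbc
        exact absurd hbc (hi2 b hb')
      · rw [Function.update_of_ne (hne b hb'), Function.update_of_ne (hne c hc')] at hbc
        exact h.inj b hb' c hc' hbc
    · intro b hb x hx hpx
      rcases Finset.mem_insert.1 hb with rfl | hb
      · rw [Function.update_self] at hpx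
        unfold Prefers at hpx
        rw [← hl] at hpx
        have h1 : l.idxOf (l.getD i 0) = i := by
          rw [List.getD_eq_getElem _ _ hil]
          exact hnod.idxOf_getElem i hil
        rw [h1] at hpx
        have hxl : x ∈ l := hlP.mem_iff.2 (List.mem_range.2 hx)
        have h2 := Nat.find_min hex hpx
        push Not at h2
        obtain ⟨c, hc, hc'⟩ := h2 (by omega)
        have h3 : l.getD (l.idxOf x) 0 = x := by
          rw [List.getD_eq_getElem _ _ (List.idxOf_lt_length_of_mem hxl)]
          exact List.getElem_idxOf _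
        refine ⟨c, Finset.mem_insert_of_mem hc, ?_, ?_⟩
        · rw [Function.update_of_ne (hne c hc), hc', h3]
        · rw [Function.update_of_ne (hne c hc), Function.update_self]
          exact Nat.lt_succ_of_le (Finset.le_sup (f := r) hc)
      · rw [Function.update_of_ne (hne b hb)] at hpx
        obtain ⟨c, hc, hc', hc''⟩ := h.pref b hb x hx hpx
        refine ⟨c, Finset.mem_insert_of_mem hc, ?_, ?_⟩
        · rw [Function.update_of_ne (hne c hc), hc']
        · rw [Function.update_of_ne (hne c hc), Function.update_of_ne (hne b hb)]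
          exact hc''
  · intro b hb
    have hba : b ≠ a := fun hba => haD (by rw [← hba]; exact hb)
    rw [Function.update_of_ne hba]

theorem SD.extend {P : List (List ℕ)} (hP : ∀ l ∈ P, l.Perm (List.range P.length))
    {D : Finset ℕ} {f r : ℕ → ℕ} (h : SD P D f r) :
    ∃ f' r', SD P (Finset.range P.length) f' r' ∧ ∀ b ∈ D, f' b = f b := by
  classical
  induction hk : P.length - D.card generalizing D f r with
  | zero =>
    have h1 : D ⊆ Finset.range P.length := fun a ha => Finset.mem_range.2 (h.sub a ha)
    have h2 : D = Finset.range P.length :=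
      Finset.eq_of_subset_of_card_le h1 (by rw [Finset.card_range]; omega)
    exact ⟨f, r, h2 ▸ h, fun b _ => rfl⟩
  | succ k ih =>
    obtain ⟨a, f', r', ha, h', hf'⟩ := h.step hP (by omega)
    obtain ⟨f'', r'', h'', hf''⟩ := ih h' (by rw [Finset.card_insert_of_notMem ha]; omega)
    exact ⟨f'', r'', h'', fun b hb =>
      (hf'' b (Finset.mem_insert_of_mem hb)).trans (hf' b hb)⟩

end Pool.Agent.V8H41.CE
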