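import Mathlib

/-!
# Coalition-exchange-stable matchings: definitions

In an instance with `n` men and `n` women, the men are `0, ..., n-1` and so are the women.  An
instance is given by the list of the preference lists of the men and the list of the preference
lists of the women; each preference list orders all `n` agents of the opposite sex, best first.
-/

namespace Pool.Agent.V8H41.CE

/-- Instances, given by the list of the preference lists of the men and the list of the preference
lists of the women. -/
abbrev Inst : Type := List (List ℕ) × List (List ℕ)

/-- There are as many women as men, and each preference list orders all agents of the opposite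
sex. -/
def IsInstance (I : Inst) : Prop :=
  I.2.length = I.1.length ∧ (∀ l ∈ I.1, l.Perm (List.range I.1.length)) ∧
    ∀ l ∈ I.2, l.Perm (List.range I.1.length)

/-- The agent `a`, of the sex with the preference lists `P`, strictly prefers `x` to `y`: the
position of `x` in the list of `a` is smaller than the position of `y`. -/
def Prefers (P : List (List ℕ)) (a x y : ℕ) : Prop :=
  (P.getD a []).idxOf x < (P.getD a []).idxOf y

/-- There is an exchange-blocking coalition among the agents of the sex with the preference lists
`P`, when `p a` is the partner of the agent `a`: distinct agents `a 0, ..., a (k+1)` such that
every `a i` strictly prefers the partner of `a (i+1)` to his or her own, indices being taken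
modulo `k + 2` (as they are in `Fin (k + 2)`). -/
def Blocked (P : List (List ℕ)) (p : ℕ → ℕ) : Prop :=
  ∃ (k : ℕ) (a : Fin (k + 2) → ℕ), Function.Injective a ∧ (∀ i, a i < P.length) ∧
    ∀ i, Prefers P (a i) (p (a (i + 1))) (p (a i))

/-- `M` is a coalition-exchange-stable matching of `I`: it lists the wives of the men `0, ..., n-1`,
each woman occurring exactly once, and no exchange-blocking coalition consists of men, or of
women.  The husband of the woman `w` is the position of `w` in `M`. -/
def CEStable (I : Inst) (M : List ℕ) : Prop :=
  M.Perm (List.range I.1.length) ∧ ¬ Blocked I.1 (fun m => M.getD m 0) ∧
    ¬ Blocked I.2 (fun w => M.idxOf w)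

end Pool.Agent.V8H41.CE
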