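import Pool.Agent.V8H41.CE.Red

/-!
# From an exact cover to a coalition-exchange-stable matching
-/

namespace Pool.Agent.V8H41.CE

open Pool.Agent.NPC.H632 (el X3C X3CPr)

/-- `J` is a set of `q` indices of triples which form an exact cover. -/
structure Cover (S : List (ℕ × ℕ × ℕ)) (q : ℕ) (J : Finset ℕ) : Prop where
  lt : ∀ j ∈ J, j < S.length
  card : J.card = q
  surj : ∀ e, e < 3 * q → ∃ c, c < 3 * S.length ∧ c / 3 ∈ J ∧ ec S c = e
  inj : ∀ c c', c / 3 ∈ J → c' / 3 ∈ J → ec S c = ec S c' → c = c'

theorem flatMap_idx (S : List (ℕ × ℕ × ℕ)) : ∀ C : List ℕ, (∀ j ∈ C, j < S.length) →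
    (C.flatMap (fun j => [3 * j, 3 * j + 1, 3 * j + 2])).map (ec S) =
      (C.map (fun j => S.getD j (0, 0, 0))).flatMap el := by
  intro C
  induction C with
  | nil => intro _; rfl
  | cons j C ih =>
    intro h
    rw [List.flatMap_cons, List.map_append, ih (fun j hj => h j (List.mem_cons_of_mem _ hj))]
    change _ = el (S.getD j (0, 0, 0)) ++ _
    congr 1
    simp only [List.map_cons, List.map_nil, ec]
    have h0 : 3 * j / 3 = j := by omega
    have h1 : (3 * j + 1) / 3 = j := by omega
    have h2 : (3 * j + 2) / 3 = j := by omega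
    have h0' : 3 * j % 3 = 0 := by omega
    have h1' : (3 * j + 1) % 3 = 1 := by omega
    have h2' : (3 * j + 2) % 3 = 2 := by omega
    rw [h0, h1, h2, h0', h1', h2']
    rfl

theorem mem_idx (C : List ℕ) (c : ℕ) :
    c ∈ C.flatMap (fun j => [3 * j, 3 * j + 1, 3 * j + 2]) ↔ c / 3 ∈ C := by
  rw [List.mem_flatMap]
  constructor
  · rintro ⟨j, hj, hc⟩
    simp only [List.mem_cons, List.not_mem_nil, or_false] at hc
    have : c / 3 = j := by omega
    rw [this]
    exact hj
  · intro h
    refine ⟨c / 3, h, ?_⟩
    simp only [List.mem_cons, List.not_mem_nil, or_false]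
    omega

theorem length_idx (C : List ℕ) :
    (C.flatMap (fun j => [3 * j, 3 * j + 1, 3 * j + 2])).length = 3 * C.length := by
  induction C with
  | nil => rfl
  | cons j C ih =>
    rw [List.flatMap_cons, List.length_append, ih, List.length_cons]
    simp
    omega

theorem exists_cover {S : List (ℕ × ℕ × ℕ)} {q : ℕ} (h : X3C (S, q)) : ∃ J, Cover S q J := by
  obtain ⟨C, hC, hp⟩ := h
  dsimp only at hC hp
  set D := C.map (fun t => S.idxOf t) with hD
  have hDlt : ∀ j ∈ D, j < S.length := by
    intro j hj
    rw [hD, List.mem_map] at hj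
    obtain ⟨t, ht, rfl⟩ := hj
    exact List.idxOf_lt_length_of_mem (hC t ht)
  have hDC : D.map (fun j => S.getD j (0, 0, 0)) = C := by
    rw [hD, List.map_map]
    conv_rhs => rw [← List.map_id C]
    apply List.map_congr_left
    intro t ht
    simp only [Function.comp]
    rw [List.getD_eq_getElem _ _ (List.idxOf_lt_length_of_mem (hC t ht)), List.getElem_idxOf, id]
  have hfl := flatMap_idx S D hDlt
  rw [hDC] at hfl
  have hnod : ((D.flatMap (fun j => [3 * j, 3 * j + 1, 3 * j + 2])).map (ec S)).Nodup := by
    rw [hfl]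
    exact hp.nodup_iff.2 List.nodup_range
  have hlen : (D.flatMap (fun j => [3 * j, 3 * j + 1, 3 * j + 2])).length = 3 * q := by
    have h1 := hp.length_eq
    rw [← hfl, List.length_map, List.length_range] at h1
    exact h1
  rw [length_idx] at hlen
  have hDnod : D.Nodup := by
    have h1 := List.Nodup.of_map _ hnod
    rw [List.nodup_iff_pairwise_ne] at h1 ⊢
    by_contra hcon
    rw [← List.nodup_iff_pairwise_ne] at hcon
    rw [← List.nodup_iff_pairwise_ne] at h1
    -- count
    rw [List.nodup_iff_count_le_one] at hcon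
    push Not at hcon
    obtain ⟨j, hj⟩ := hcon
    have h2 := List.nodup_iff_count_le_one.1 h1 (3 * j)
    rw [List.count_flatMap] at h2
    have h3 : ∀ D : List ℕ, D.count j ≤
        (D.map (List.count (3 * j) ∘ fun j => [3 * j, 3 * j + 1, 3 * j + 2])).sum := by
      intro D
      induction D with
      | nil => simp
      | cons i D ih =>
        rw [List.count_cons, List.map_cons, List.sum_cons]
        by_cases hij : i = j
        · subst hij
          have : 1 ≤ (List.count (3 * i) ∘ fun j => [3 * j, 3 * j + 1, 3 * j + 2]) i := by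
            simp [List.count_cons]
          simp only [beq_self_eq_true, if_true]
          omega
        · have : (i == j) = false := by simpa using hij
          rw [this]
          simp only [Bool.false_eq_true, if_false]
          omega
    have h4 := h3 D
    omega
  refine ⟨D.toFinset, fun j hj => hDlt j (List.mem_toFinset.1 hj), ?_, ?_, ?_⟩
  · rw [List.toFinset_card_of_nodup hDnod]
    omega
  · intro e he
    have h1 : e ∈ (D.flatMap (fun j => [3 * j, 3 * j + 1, 3 * j + 2])).map (ec S) := by
      rw [hfl]
      exact hp.mem_iff.2 (List.mem_range.2 he)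
    obtain ⟨c, hc, hce⟩ := List.mem_map.1 h1
    rw [mem_idx] at hc
    have := hDlt _ hc
    exact ⟨c, by omega, List.mem_toFinset.2 hc, hce⟩
  · intro c c' hc hc' hcc
    rw [List.mem_toFinset] at hc hc'
    exact List.inj_on_of_nodup_map hnod ((mem_idx D c).2 hc) ((mem_idx D c').2 hc') hcc

/-! ### The partial assignment -/

section

variable (S : List (ℕ × ℕ × ℕ)) (q : ℕ) (J : Finset ℕ)

/-- number of men of the groups outside `J` before the `u`-th -/
def kc (u : ℕ) : ℕ := Nat.count (fun u => u / cN S.length ∉ J) u

/-- the choices -/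
def fA (a : ℕ) : ℕ :=
  if a = 0 then 0
  else if a ≤ S.length * cN S.length then
    if (a - 1) / cN S.length ∈ J then 1 + 3 * q + cG S.length q + (a - 1)
    else 1 + 3 * q + kc S J (a - 1)
  else 1 + ec S (a - 1 - S.length * cN S.length)

/-- the times of the choices -/
def rA (a : ℕ) : ℕ :=
  if a = 0 then cG S.length q + 2
  else if a ≤ S.length * cN S.length then
    if (a - 1) / cN S.length ∈ J then cG S.length q
    else kc S J (a - 1)
  else cG S.length q + 1

/-- the men who choose -/
def DA : Finset ℕ :=
  (Finset.range (cn S.length q)).filter fun a => a ≤ S.length * cN S.length ∨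
    (a ≤ S.length * cN S.length + 3 * S.length ∧ (a - 1 - S.length * cN S.length) / 3 ∈ J)

end

variable {S : List (ℕ × ℕ × ℕ)} {q : ℕ} {J : Finset ℕ}

theorem fA_beta_in {u : ℕ} (hu : u < S.length * cN S.length) (h : u / cN S.length ∈ J) :
    fA S q J (1 + u) = 1 + 3 * q + cG S.length q + u := by
  unfold fA
  rw [if_neg (by omega), if_pos (by omega), Nat.add_sub_cancel_left, if_pos h]

theorem fA_beta_out {u : ℕ} (hu : u < S.length * cN S.length) (h : u / cN S.length ∉ J) :
    fA S q J (1 + u) = 1 + 3 * q + kc S J u := by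
  unfold fA
  rw [if_neg (by omega), if_pos (by omega), Nat.add_sub_cancel_left, if_neg h]

theorem fA_elem (c : ℕ) :
    fA S q J (1 + S.length * cN S.length + c) = 1 + ec S c := by
  unfold fA
  rw [if_neg (by omega), if_neg (by omega)]
  congr 2
  omega

theorem rA_beta_in {u : ℕ} (hu : u < S.length * cN S.length) (h : u / cN S.length ∈ J) :
    rA S q J (1 + u) = cG S.length q := by
  unfold rA
  rw [if_neg (by omega), if_pos (by omega), Nat.add_sub_cancel_left, if_pos h]

theorem rA_beta_out {u : ℕ} (hu : u < S.length * cN S.length) (h : u / cN S.length ∉ J) :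
    rA S q J (1 + u) = kc S J u := by
  unfold rA
  rw [if_neg (by omega), if_pos (by omega), Nat.add_sub_cancel_left, if_neg h]

theorem rA_elem (c : ℕ) :
    rA S q J (1 + S.length * cN S.length + c) = cG S.length q + 1 := by
  unfold rA
  rw [if_neg (by omega), if_neg (by omega)]

theorem mem_DA {a : ℕ} : a ∈ DA S q J ↔ a < cn S.length q ∧ (a ≤ S.length * cN S.length ∨
    (a ≤ S.length * cN S.length + 3 * S.length ∧
      (a - 1 - S.length * cN S.length) / 3 ∈ J)) := by
  unfold DA
  rw [Finset.mem_filter, Finset.mem_range]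

theorem cn_ge (h : Pm S q) : 1 + S.length * cN S.length + 3 * S.length ≤ cn S.length q := by
  unfold cn cG
  have h1 : S.length - q + q = S.length := Nat.sub_add_cancel h.le_len
  have h2 : (S.length - q) * 3 ≤ (S.length - q) * cN S.length := by
    apply Nat.mul_le_mul_left
    have := h.one_le
    have := h.le_len
    unfold cN
    omega
  omega

theorem mem_DA_zero : 0 ∈ DA S q J := by
  rw [mem_DA]
  exact ⟨by unfold cn; omega, Or.inl (Nat.zero_le _)⟩

theorem mem_DA_beta {u : ℕ} (hu : u < S.length * cN S.length) : 1 + u ∈ DA S q J := by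
  rw [mem_DA]
  exact ⟨by unfold cn; omega, Or.inl (by omega)⟩

theorem mem_DA_elem (h : Pm S q) {c : ℕ} (hc : c < 3 * S.length) (hcJ : c / 3 ∈ J) :
    1 + S.length * cN S.length + c ∈ DA S q J := by
  rw [mem_DA]
  have h1 := cn_ge h
  refine ⟨by omega, Or.inr ⟨by omega, ?_⟩⟩
  have : 1 + S.length * cN S.length + c - 1 - S.length * cN S.length = c := by omega
  rw [this]
  exact hcJ

theorem DA_cases {a : ℕ} (ha : a ∈ DA S q J) : a = 0 ∨
    (∃ u, u < S.length * cN S.length ∧ u / cN S.length ∈ J ∧ a = 1 + u) ∨
    (∃ u, u < S.length * cN S.length ∧ u / cN S.length ∉ J ∧ a = 1 + u) ∨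
    (∃ c, c < 3 * S.length ∧ c / 3 ∈ J ∧ a = 1 + S.length * cN S.length + c) := by
  rw [mem_DA] at ha
  obtain ⟨-, ha⟩ := ha
  rcases man_cases S a with h | ⟨u, hu, rfl⟩ | ⟨c, hc, rfl⟩ | h
  · exact Or.inl h
  · by_cases h : u / cN S.length ∈ J
    · exact Or.inr (Or.inl ⟨u, hu, h, rfl⟩)
    · exact Or.inr (Or.inr (Or.inl ⟨u, hu, h, rfl⟩))
  · refine Or.inr (Or.inr (Or.inr ⟨c, hc, ?_, rfl⟩))
    rcases ha with ha | ha
    · omega
    · have : 1 + S.length * cN S.length + c - 1 - S.length * cN S.length = c := by omega
      rw [this] at ha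
      exact ha.2
  · rcases ha with ha | ha <;> omega

/-! ### Counting -/

theorem count_all (hJ : Cover S q J) :
    kc S J (S.length * cN S.length) = cG S.length q := by
  unfold kc cG
  rw [Nat.count_eq_card_filter_range]
  have hN : 0 < cN S.length := by unfold cN; omega
  have hmap : ∀ u ∈ (Finset.range (S.length * cN S.length)).filter
      (fun u => u / cN S.length ∉ J), u / cN S.length ∈ Finset.range S.length \ J := by
    intro u hu
    rw [Finset.mem_filter, Finset.mem_range] at hu
    rw [Finset.mem_sdiff, Finset.mem_range]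
    exact ⟨Nat.div_lt_of_lt_mul (by rw [Nat.mul_comm]; exact hu.1), hu.2⟩
  rw [Finset.card_eq_sum_card_fiberwise hmap]
  have hfib : ∀ j ∈ Finset.range S.length \ J,
      (((Finset.range (S.length * cN S.length)).filter
      (fun u => u / cN S.length ∉ J)).filter (fun u => u / cN S.length = j)).card =
        cN S.length := by
    intro j hj
    rw [Finset.mem_sdiff, Finset.mem_range] at hj
    have hset : ((Finset.range (S.length * cN S.length)).filter
      (fun u => u / cN S.length ∉ J)).filter (fun u => u / cN S.length = j) =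
      (Finset.range (cN S.length)).map ⟨fun i => j * cN S.length + i, fun a b hab => by
        dsimp only at hab; omega⟩ := by
      ext u
      simp only [Finset.mem_filter, Finset.mem_range, Finset.mem_map, Function.Embedding.coeFn_mk]
      constructor
      · rintro ⟨⟨h1, h2⟩, h3⟩
        refine ⟨u % cN S.length, Nat.mod_lt _ hN, ?_⟩
        rw [← h3, Nat.mul_comm]
        exact Nat.div_add_mod u _
      · rintro ⟨i, hi, rfl⟩
        have h1 : (j * cN S.length + i) / cN S.length = j := by
          rw [Nat.mul_comm, Nat.mul_add_div hN, Nat.div_eq_of_lt hi, Nat.add_zero]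
        refine ⟨⟨?_, ?_⟩, h1⟩
        · have h2 := Nat.mul_le_mul_right (cN S.length) (show j + 1 ≤ S.length from hj.1)
          rw [Nat.add_mul, Nat.one_mul] at h2
          omega
        · rw [h1]
          exact hj.2
    rw [hset, Finset.card_map, Finset.card_range]
  rw [Finset.sum_congr rfl hfib, Finset.sum_const, smul_eq_mul]
  congr 1
  rw [Finset.card_sdiff_of_subset (fun j hj => Finset.mem_range.2 (hJ.lt j hj)), hJ.card,
    Finset.card_range]

theorem kc_lt (hJ : Cover S q J) {u : ℕ} (hu : u < S.length * cN S.length)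
    (h : u / cN S.length ∉ J) : kc S J u < cG S.length q := by
  rw [← count_all hJ]
  unfold kc
  exact Nat.count_strict_mono (p := fun u => u / cN S.length ∉ J) h hu

theorem out_infinite (m : ℕ) (J : Finset ℕ) : (setOf fun u => u / cN m ∉ J).Infinite := by
  have hN : 0 < cN m := by unfold cN; omega
  apply Set.infinite_of_forall_exists_gt
  intro a
  refine ⟨cN m * (J.sup (fun j => j) + 1 + a), ?_, ?_⟩
  · change cN m * (J.sup (fun j => j) + 1 + a) / cN m ∉ J
    rw [Nat.mul_div_cancel_left _ hN]
    intro h
    have h1 : J.sup (fun j => j) + 1 + a ≤ J.sup (fun j => j) :=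
      Finset.le_sup (f := fun j => j) h
    omega
  · have h1 := Nat.mul_le_mul_right (J.sup (fun j => j) + 1 + a) (show 1 ≤ cN m from hN)
    omega

theorem kc_surj (hJ : Cover S q J) {k : ℕ} (hk : k < cG S.length q) :
    ∃ u, u < S.length * cN S.length ∧ u / cN S.length ∉ J ∧ kc S J u = k := by
  rw [← count_all hJ] at hk
  unfold kc at hk ⊢
  refine ⟨Nat.nth (fun u => u / cN S.length ∉ J) k, Nat.nth_lt_of_lt_count hk, ?_, ?_⟩
  · exact Nat.nth_mem_of_infinite (out_infinite _ _) k
  · exact Nat.count_nth_of_infinite (out_infinite _ _) k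

theorem kc_inj {u v : ℕ} (hu : u / cN S.length ∉ J) (hv : v / cN S.length ∉ J)
    (h : kc S J u = kc S J v) : u = v := by
  unfold kc at h
  exact Nat.count_injective (p := fun u => u / cN S.length ∉ J) hu hv h

/-! ### The partial assignment is obtained by serial dictatorship -/

theorem length_inst (S : List (ℕ × ℕ × ℕ)) (q : ℕ) : (inst S q).1.length = cn S.length q := by
  unfold inst
  simp

theorem ml_getElem {a i : ℕ} (hi : i < (topA S q a).length) {x : ℕ}
    (h : (ml S q a)[i]? = some x) : (topA S q a)[i]? = some x := by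
  unfold ml mkL at h
  rwa [List.getElem?_append_left hi] at h

/-- If man `a` prefers `x` to his `i`-th entry, then `x` is an earlier entry. -/
theorem pref_entry (h : Pm S q) {a i : ℕ} (ha : a < cn S.length q)
    (hi : i ≤ (topA S q a).length) {x y : ℕ} (hy : (ml S q a)[i]? = some y)
    (hp : Prefers (inst S q).1 a x y) : ∃ j, j < i ∧ (topA S q a)[j]? = some x := by
  rw [prefers_inst ha] at hp
  rw [List.getElem?_eq_some_iff] at hy
  obtain ⟨hi', rfl⟩ := hy
  obtain ⟨j, hj, hx⟩ := pref_getElem ((ml_perm h a).nodup_iff.2 List.nodup_range) hi' hp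
  exact ⟨j, hj, ml_getElem (by omega) hx⟩

theorem sd_fA (h : Pm S q) (hJ : Cover S q J) :
    SD (inst S q).1 (DA S q J) (fA S q J) (rA S q J) := by
  have hNp : 0 < cN S.length := by unfold cN; omega
  constructor
  · intro a ha
    rw [length_inst]
    exact (mem_DA.1 ha).1
  · intro a ha
    rw [length_inst]
    unfold cn
    rcases DA_cases ha with rfl | ⟨u, hu, huJ, rfl⟩ | ⟨u, hu, huJ, rfl⟩ | ⟨c, hc, hcJ, rfl⟩
    · unfold fA
      rw [if_pos rfl]
      omega
    · rw [fA_beta_in hu huJ]
      omega
    · rw [fA_beta_out hu huJ]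
      have := kc_lt hJ hu huJ
      omega
    · rw [fA_elem]
      have := h.ec_lt c hc
      omega
  · intro a ha b hb hab
    have h0 : fA S q J 0 = 0 := by unfold fA; rw [if_pos rfl]
    rcases DA_cases ha with rfl | ⟨u, hu, huJ, rfl⟩ | ⟨u, hu, huJ, rfl⟩ | ⟨c, hc, hcJ, rfl⟩ <;>
    rcases DA_cases hb with rfl | ⟨v, hv, hvJ, rfl⟩ | ⟨v, hv, hvJ, rfl⟩ | ⟨d, hd, hdJ, rfl⟩
    · rfl
    · rw [h0, fA_beta_in hv hvJ] at hab; omega
    · rw [h0, fA_beta_out hv hvJ] at hab; omega
    · rw [h0, fA_elem] at hab; omega
    · rw [h0, fA_beta_in hu huJ] at hab; omega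
    · rw [fA_beta_in hu huJ, fA_beta_in hv hvJ] at hab; omega
    · rw [fA_beta_in hu huJ, fA_beta_out hv hvJ] at hab
      have := kc_lt hJ hv hvJ
      omega
    · rw [fA_beta_in hu huJ, fA_elem] at hab
      have := h.ec_lt d hd
      omega
    · rw [h0, fA_beta_out hu huJ] at hab; omega
    · rw [fA_beta_out hu huJ, fA_beta_in hv hvJ] at hab
      have := kc_lt hJ hu huJ
      omega
    · rw [fA_beta_out hu huJ, fA_beta_out hv hvJ] at hab
      have := kc_inj huJ hvJ (by omega)
      rw [this]
    · rw [fA_beta_out hu huJ, fA_elem] at hab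
      have := h.ec_lt d hd
      omega
    · rw [h0, fA_elem] at hab; omega
    · rw [fA_elem, fA_beta_in hv hvJ] at hab
      have := h.ec_lt c hc
      omega
    · rw [fA_elem, fA_beta_out hv hvJ] at hab
      have := h.ec_lt c hc
      omega
    · rw [fA_elem, fA_elem] at hab
      have := hJ.inj c d hcJ hdJ (by omega)
      rw [this]
  · intro a ha x hx hp
    have haN := (mem_DA.1 ha).1
    rcases DA_cases ha with rfl | ⟨u, hu, huJ, rfl⟩ | ⟨u, hu, huJ, rfl⟩ | ⟨c, hc, hcJ, rfl⟩
    · have hlen : (topA S q 0).length = 3 * q := by rw [topA_zero]; simp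
      have h0 : fA S q J 0 = 0 := by unfold fA; rw [if_pos rfl]
      rw [h0] at hp
      have h1 : (ml S q 0)[3 * q]? = some 0 := by
        unfold ml mkL
        rw [List.getElem?_append_right (by omega), hlen, Nat.sub_self]
        rfl
      obtain ⟨e, he, hxe⟩ := pref_entry h haN (by omega) h1 hp
      rw [topA_zero, List.getElem?_map, List.getElem?_range he] at hxe
      simp only [Option.map_some, Option.some.injEq] at hxe
      obtain ⟨c, hc, hcJ, hce⟩ := hJ.surj e he
      refine ⟨_, mem_DA_elem h hc hcJ, ?_, ?_⟩
      · rw [fA_elem, hce, hxe]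
      · rw [rA_elem]
        unfold rA
        rw [if_pos rfl]
        omega
    · have htop := topA_beta (q := q) hu
      have hlen : (topA S q (1 + u)).length = cG S.length q + 1 := by rw [htop]; simp
      rw [fA_beta_in hu huJ] at hp
      have h1 : (ml S q (1 + u))[cG S.length q]? = some (1 + 3 * q + cG S.length q + u) := by
        unfold ml mkL
        rw [List.getElem?_append_left (by omega), htop, List.getElem?_append_right (by simp)]
        simp
      obtain ⟨k, hk, hxk⟩ := pref_entry h haN (by omega) h1 hp
      rw [htop, List.getElem?_append_left (by simpa using hk), List.getElem?_map,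
        List.getElem?_range hk] at hxk
      simp only [Option.map_some, Option.some.injEq] at hxk
      obtain ⟨v, hv, hvJ, hvk⟩ := kc_surj hJ hk
      refine ⟨1 + v, mem_DA_beta hv, ?_, ?_⟩
      · rw [fA_beta_out hv hvJ, hvk, hxk]
      · rw [rA_beta_out hv hvJ, rA_beta_in hu huJ, hvk]
        exact hk
    · have htop := topA_beta (q := q) hu
      have hlen : (topA S q (1 + u)).length = cG S.length q + 1 := by rw [htop]; simp
      have hkl := kc_lt hJ hu huJ
      rw [fA_beta_out hu huJ] at hp
      have h1 : (ml S q (1 + u))[kc S J u]? = some (1 + 3 * q + kc S J u) := by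
        unfold ml mkL
        rw [List.getElem?_append_left (by omega), htop,
          List.getElem?_append_left (by simpa using hkl), List.getElem?_map,
          List.getElem?_range hkl]
        simp
      obtain ⟨k, hk, hxk⟩ := pref_entry h haN (by omega) h1 hp
      have hk' : k < cG S.length q := by omega
      rw [htop, List.getElem?_append_left (by simpa using hk'), List.getElem?_map,
        List.getElem?_range hk'] at hxk
      simp only [Option.map_some, Option.some.injEq] at hxk
      obtain ⟨v, hv, hvJ, hvk⟩ := kc_surj hJ hk'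
      refine ⟨1 + v, mem_DA_beta hv, ?_, ?_⟩
      · rw [fA_beta_out hv hvJ, hvk, hxk]
      · rw [rA_beta_out hv hvJ, rA_beta_out hu huJ, hvk]
        exact hk
    · have htop := topA_elem (q := q) hc
      have hlen : (topA S q (1 + S.length * cN S.length + c)).length = cN S.length + 1 := by
        rw [htop]; simp
      rw [fA_elem] at hp
      have h1 : (ml S q (1 + S.length * cN S.length + c))[cN S.length]? =
          some (1 + ec S c) := by
        unfold ml mkL
        rw [List.getElem?_append_left (by omega), htop, List.getElem?_append_right (by simp)]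
        simp
      obtain ⟨i, hi, hxi⟩ := pref_entry h haN (by omega) h1 hp
      rw [htop, List.getElem?_append_left (by simpa using hi), List.getElem?_map,
        List.getElem?_range hi] at hxi
      simp only [Option.map_some, Option.some.injEq] at hxi
      have hv := group_lt hc hi
      have hvJ : (c / 3 * cN S.length + i) / cN S.length ∈ J := by
        have h2 : (c / 3 * cN S.length + i) / cN S.length = c / 3 := by
          rw [Nat.mul_comm, Nat.mul_add_div hNp, Nat.div_eq_of_lt hi, Nat.add_zero]
        rw [h2]
        exact hcJ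
      refine ⟨1 + (c / 3 * cN S.length + i), mem_DA_beta hv, ?_, ?_⟩
      · rw [fA_beta_in hv hvJ]
        omega
      · rw [rA_beta_in hv hvJ, rA_elem]
        omega

theorem exists_stable (h : Pm S q) (hJ : Cover S q J) : ∃ M, CEStable (inst S q) M := by
  set n := cn S.length q with hn
  have hn0 : 0 < n := by rw [hn]; unfold cn; omega
  have hP : ∀ l ∈ (inst S q).1, l.Perm (List.range (inst S q).1.length) :=
    (isInstance_inst h).2.1
  obtain ⟨f, r, hf, hfD⟩ := (sd_fA h hJ).extend hP
  rw [length_inst, ← hn] at hf
  have hlen1 : (inst S q).1.length = n := length_inst S q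
  have hlen2 : (inst S q).2.length = n := by unfold inst; simp [hn]
  have hf0 : f 0 = 0 := by
    rw [hfD 0 mem_DA_zero]
    unfold fA
    rw [if_pos rfl]
  have hget : ∀ a, a < n → ((List.range n).map f).getD a 0 = f a := by
    intro a ha
    rw [List.getD_eq_getElem _ _ (by simpa using ha), List.getElem_map, List.getElem_range]
  have hnod : ((List.range n).map f).Nodup := by
    refine List.Nodup.map_on ?_ List.nodup_range
    intro a ha b hb hab
    exact hf.inj a (Finset.mem_range.2 (List.mem_range.1 ha)) b
      (Finset.mem_range.2 (List.mem_range.1 hb)) hab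
  have hperm : ((List.range n).map f).Perm (List.range n) := by
    have hsub : (List.range n).map f ⊆ List.range n := by
      intro x hx
      rw [List.mem_map] at hx
      obtain ⟨a, ha, rfl⟩ := hx
      have h1 := hf.lt a (Finset.mem_range.2 (List.mem_range.1 ha))
      rw [hlen1] at h1
      exact List.mem_range.2 h1
    exact (List.subperm_of_subset hnod hsub).perm_of_length_le (by simp)
  refine ⟨(List.range n).map f, ?_, ?_, ?_⟩
  · rw [hlen1]
    exact hperm
  · refine not_blocked r ?_
    intro a b ha hb hp
    rw [hlen1] at ha hb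
    rw [hget a ha, hget b hb] at hp
    obtain ⟨c, hc, hc', hc''⟩ := hf.pref a (Finset.mem_range.2 ha) (f b)
      (hf.lt b (Finset.mem_range.2 hb)) hp
    rw [hf.inj c hc b (Finset.mem_range.2 hb) hc'] at hc''
    exact hc''
  · refine not_blocked (fun w => ((List.range n).map f).idxOf w) ?_
    intro w v hw hv hp
    rw [hlen2] at hw hv
    have hmem : ∀ w, w < n → w ∈ (List.range n).map f := fun w hw =>
      hperm.mem_iff.2 (List.mem_range.2 hw)
    have hlt : ∀ w, w < n → ((List.range n).map f).idxOf w < n := by
      intro w hw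
      have := List.idxOf_lt_length_of_mem (hmem w hw)
      simpa using this
    have hidx0 : ((List.range n).map f).idxOf 0 = 0 := by
      have h1 := hnod.idxOf_getElem 0 (by simpa using hn0)
      rw [List.getElem_map, List.getElem_range, hf0] at h1
      exact h1
    have hne : ∀ w, w < n → w ≠ 0 → ((List.range n).map f).idxOf w ≠ 0 := by
      intro w hw hw0 h0
      have h1 : ((List.range n).map f)[((List.range n).map f).idxOf w]'(by
        simpa using hlt w hw) = w := List.getElem_idxOf _
      simp only [h0, List.getElem_map, List.getElem_range, hf0] at h1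
      exact hw0 h1.symm
    rw [prefers_inst' hw, ← hn] at hp
    by_cases hw0 : w = 0
    · subst hw0
      rw [hidx0] at hp
      unfold wl at hp
      rw [if_pos rfl] at hp
      have h1 : (List.range n).idxOf 0 = 0 := by
        have h2 := (List.nodup_range (n := n)).idxOf_getElem 0 (by simpa using hn0)
        rw [List.getElem_range] at h2
        exact h2
      rw [h1] at hp
      omega
    · have e1 := idxOf_wl (n := n) (w := w) hw0 (hne w hw hw0) (hlt w hw)
      rw [e1] at hp
      have h3 := hlt w hw
      by_cases hv0 : ((List.range n).map f).idxOf v = 0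
      · rw [hv0, idxOf_wl_zero hw0 hn0] at hp
        omega
      · rw [idxOf_wl hw0 hv0 (hlt v hv)] at hp
        omega

end Pool.Agent.V8H41.CE
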