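import Pool.Agent.V8H41.CE.Bwd
import Pool.Agent.H671R2.Search
import Pool.Agent.H673R2.Search
import Pool.Agent.H612.CollectPoly

/-!
# Membership in `NP`
-/

namespace Pool.Agent.V8H41.CE

open Pool.Agent.NPC

/-- The test for orderings of `0, ..., n-1`. -/
def permB (l : List ℕ) (n : ℕ) : Bool :=
  decide (l.length = n) && (List.range n).all fun x => decide (x ∈ l)

theorem permB_iff (l : List ℕ) (n : ℕ) : permB l n = true ↔ l.Perm (List.range n) := by
  unfold permB
  rw [Bool.and_eq_true, decide_eq_true_iff, List.all_eq_true]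
  simp only [decide_eq_true_eq, List.mem_range]
  constructor
  · rintro ⟨h1, h2⟩
    symm
    exact (List.subperm_of_subset List.nodup_range
      (fun x hx => h2 x (List.mem_range.1 hx))).perm_of_length_le (by simp [h1])
  · intro h
    exact ⟨by rw [h.length_eq, List.length_range], fun x hx => h.mem_iff.2 (List.mem_range.2 hx)⟩

/-- The test for instances. -/
def isInstB (I : Inst) : Bool :=
  decide (I.2.length = I.1.length) && ((I.1.all fun l => permB l I.1.length) &&
    I.2.all fun l => permB l I.1.length)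

theorem isInstB_iff (I : Inst) : isInstB I = true ↔ IsInstance I := by
  unfold isInstB IsInstance
  rw [Bool.and_eq_true, Bool.and_eq_true, decide_eq_true_iff, List.all_eq_true, List.all_eq_true]
  simp only [permB_iff]

/-- The check of a ranking which decreases along envy; `p` is the list of the partners. -/
def chkB (P : List (List ℕ)) (p R : List ℕ) : Bool :=
  (List.range P.length).all fun a => (List.range P.length).all fun b =>
    !(decide ((P.getD a []).idxOf (p.getD b 0) < (P.getD a []).idxOf (p.getD a 0))) ||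
      decide (R.getD b 0 < R.getD a 0)

theorem chkB_iff (P : List (List ℕ)) (p R : List ℕ) : chkB P p R = true ↔
    ∀ a b, a < P.length → b < P.length → Prefers P a (p.getD b 0) (p.getD a 0) →
      R.getD b 0 < R.getD a 0 := by
  unfold chkB Prefers
  simp only [List.all_eq_true, List.mem_range, Bool.or_eq_true, Bool.not_eq_true',
    decide_eq_false_iff_not, decide_eq_true_iff]
  constructor
  · intro h a b ha hb hp
    rcases h a ha b hb with h1 | h1
    · exact absurd hp h1
    · exact h1
  · intro h a ha b hb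
    by_cases hp : (P.getD a []).idxOf (p.getD b 0) < (P.getD a []).idxOf (p.getD a 0)
    · exact Or.inr (h a b ha hb hp)
    · exact Or.inl hp

/-- The ranking by the number of agents reachable along envy. -/
theorem exists_rank {P : List (List ℕ)} {p : ℕ → ℕ} (h : ¬ Blocked P p) :
    ∃ r : ℕ → ℕ, (∀ a, r a ≤ P.length) ∧
      ∀ a b, a < P.length → b < P.length → Prefers P a (p b) (p a) → r b < r a := by
  classical
  refine ⟨fun a => ((Finset.range P.length).filter
    (fun b => Relation.TransGen (Envy P p) a b)).card, ?_, ?_⟩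
  · intro a
    refine (Finset.card_filter_le _ _).trans ?_
    rw [Finset.card_range]
  · intro a b ha hb hp
    have hE : Envy P p a b := ⟨ha, hb, hp⟩
    apply Finset.card_lt_card
    rw [Finset.ssubset_iff_of_subset]
    · refine ⟨b, ?_, ?_⟩
      · rw [Finset.mem_filter, Finset.mem_range]
        exact ⟨hb, Relation.TransGen.single hE⟩
      · rw [Finset.mem_filter]
        exact fun h' => not_transGen h b h'.2
    · intro c hc
      rw [Finset.mem_filter] at hc ⊢
      exact ⟨hc.1, Relation.TransGen.head hE hc.2⟩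

/-- The list of the husbands. -/
def hus (M : List ℕ) (n : ℕ) : List ℕ := (List.range n).map fun w => M.idxOf w

/-- The verifier. -/
def vf (x : Inst × List ℕ × List ℕ × List ℕ) : Bool :=
  isInstB x.1 && (permB x.2.1 x.1.1.length &&
    ((decide (x.2.2.1.length = x.1.1.length) &&
      x.2.2.1.all (fun r => decide (r ≤ x.1.1.length))) &&
    ((decide (x.2.2.2.length = x.1.1.length) &&
      x.2.2.2.all (fun r => decide (r ≤ x.1.1.length))) &&
    (chkB x.1.1 x.2.1 x.2.2.1 && chkB x.1.2 (hus x.2.1 x.1.1.length) x.2.2.2))))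

theorem getD_map_range {f : ℕ → ℕ} {n a : ℕ} (ha : a < n) :
    ((List.range n).map f).getD a 0 = f a := by
  rw [List.getD_eq_getElem _ _ (by simpa using ha), List.getElem_map, List.getElem_range]

theorem stable_of_vf {I : Inst} {M R1 R2 : List ℕ} (h : vf (I, M, R1, R2) = true) :
    IsInstance I ∧ CEStable I M := by
  unfold vf at h
  simp only [Bool.and_eq_true, isInstB_iff, permB_iff, chkB_iff] at h
  obtain ⟨hI, hM, -, -, h1, h2⟩ := h
  refine ⟨hI, hM, ?_, ?_⟩
  · exact not_blocked (fun a => R1.getD a 0) h1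
  · refine not_blocked (fun a => R2.getD a 0) ?_
    intro a b ha hb hp
    apply h2 a b ha hb
    rw [hI.1] at ha hb
    unfold hus
    rw [getD_map_range ha, getD_map_range hb]
    exact hp

theorem vf_of_stable {I : Inst} {M : List ℕ} (hI : IsInstance I) (hM : CEStable I M) :
    ∃ R1 R2, vf (I, M, R1, R2) = true := by
  obtain ⟨hp, hb1, hb2⟩ := hM
  obtain ⟨r1, l1, h1⟩ := exists_rank hb1
  obtain ⟨r2, l2, h2⟩ := exists_rank hb2
  refine ⟨(List.range I.1.length).map r1, (List.range I.1.length).map r2, ?_⟩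
  unfold vf
  simp only [Bool.and_eq_true, isInstB_iff, permB_iff, chkB_iff, decide_eq_true_iff,
    List.all_eq_true, List.length_map, List.length_range, List.mem_map, List.mem_range,
    forall_exists_index, and_imp, forall_apply_eq_imp_iff₂, true_and]
  refine ⟨hI, hp, fun a _ => l1 a, fun a _ => ?_, ?_, ?_⟩
  · have := l2 a
    rw [hI.1] at this
    exact this
  · intro a b ha hb hpr
    rw [getD_map_range ha, getD_map_range hb]
    exact h1 a b ha hb hpr
  · intro a b ha hb hpr
    have ha' := ha
    have hb' := hb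
    rw [hI.1] at ha' hb'
    unfold hus at hpr
    rw [getD_map_range ha', getD_map_range hb'] at hpr
    rw [getD_map_range ha', getD_map_range hb']
    exact h2 a b ha hb hpr

end Pool.Agent.V8H41.CE

namespace Pool.Agent.NPC.V8H41CE

open Pool.Agent.NPC Pool.Agent.V8H41.CE Pool.Agent.NPC.H612

section

variable {α : Type} [TEnc α]

theorem poly_permB {l : α → List ℕ} {n : α → ℕ} (hl : Poly l) (hn : UPoly n) :
    Poly (fun a => permB (l a) (n a)) := by
  unfold permB
  have h1 := hn.toPoly
  have h2 := hn.range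
  refine Poly.and (Poly.decide_eq (Poly.length hl) h1) ?_
  exact Poly.all (p := fun a x => decide (x ∈ l a)) h2
    (Poly.dec_mem (Poly.snd Poly.id) (hl.comp (Poly.fst Poly.id)))

theorem poly_isInstB {I : α → Inst} (hI : Poly I) : Poly (fun a => isInstB (I a)) := by
  unfold isInstB
  have hn : UPoly (fun a => (I a).1.length) := UPoly.length (Poly.fst hI)
  refine Poly.and (Poly.decide_eq (Poly.length (Poly.snd hI)) hn.toPoly) (Poly.and ?_ ?_)
  · exact Poly.all (p := fun a l => permB l (I a).1.length) (Poly.fst hI)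
      (poly_permB (Poly.snd Poly.id) (hn.comp (Poly.fst Poly.id)))
  · exact Poly.all (p := fun a l => permB l (I a).1.length) (Poly.snd hI)
      (poly_permB (Poly.snd Poly.id) (hn.comp (Poly.fst Poly.id)))

theorem poly_pos {P : α → List (List ℕ)} {a x : α → ℕ} (hP : Poly P) (ha : Poly a)
    (hx : Poly x) : Poly (fun t => ((P t).getD (a t) []).idxOf (x t)) :=
  poly_idxOf (Poly.getD hP ha (Poly.const [])) hx

theorem poly_chkB {P : α → List (List ℕ)} {p R : α → List ℕ} (hP : Poly P) (hp : Poly p)
    (hR : Poly R) : Poly (fun a => chkB (P a) (p a) (R a)) := by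
  unfold chkB
  have hn : UPoly (fun a => (P a).length) := UPoly.length hP
  refine Poly.all (p := fun t a => (List.range (P t).length).all fun b =>
    !(decide (((P t).getD a []).idxOf ((p t).getD b 0) <
      ((P t).getD a []).idxOf ((p t).getD a 0))) ||
      decide ((R t).getD b 0 < (R t).getD a 0)) hn.range ?_
  refine Poly.all (p := fun (s : α × ℕ) b =>
    !(decide (((P s.1).getD s.2 []).idxOf ((p s.1).getD b 0) <
      ((P s.1).getD s.2 []).idxOf ((p s.1).getD s.2 0))) ||
      decide ((R s.1).getD b 0 < (R s.1).getD s.2 0)) (hn.comp (Poly.fst Poly.id)).range ?_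
  have e1 : Poly (fun y : (α × ℕ) × ℕ => y.1.1) := Poly.fst (Poly.fst Poly.id)
  have e2 : Poly (fun y : (α × ℕ) × ℕ => y.1.2) := Poly.snd (Poly.fst Poly.id)
  have e3 : Poly (fun y : (α × ℕ) × ℕ => y.2) := Poly.snd Poly.id
  have g1 : Poly (fun y : (α × ℕ) × ℕ => (p y.1.1).getD y.2 0) :=
    Poly.getD (hp.comp e1) e3 (Poly.const 0)
  have g2 : Poly (fun y : (α × ℕ) × ℕ => (p y.1.1).getD y.1.2 0) :=
    Poly.getD (hp.comp e1) e2 (Poly.const 0)
  have g3 : Poly (fun y : (α × ℕ) × ℕ => (R y.1.1).getD y.2 0) :=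
    Poly.getD (hR.comp e1) e3 (Poly.const 0)
  have g4 : Poly (fun y : (α × ℕ) × ℕ => (R y.1.1).getD y.1.2 0) :=
    Poly.getD (hR.comp e1) e2 (Poly.const 0)
  exact Poly.or (Poly.not (Poly.decide_lt (poly_pos (hP.comp e1) e2 g1)
    (poly_pos (hP.comp e1) e2 g2))) (Poly.decide_lt g3 g4)

theorem poly_hus {M : α → List ℕ} {n : α → ℕ} (hM : Poly M) (hn : UPoly n) :
    Poly (fun a => hus (M a) (n a)) :=
  Poly.map (F := fun a w => (M a).idxOf w) hn.range
    (poly_idxOf (hM.comp (Poly.fst Poly.id)) (Poly.snd Poly.id))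

end

theorem poly_vf : Poly vf := by
  have e1 : Poly (fun x : Inst × List ℕ × List ℕ × List ℕ => x.1) := Poly.fst Poly.id
  have e2 : Poly (fun x : Inst × List ℕ × List ℕ × List ℕ => x.2.1) :=
    Poly.fst (Poly.snd Poly.id)
  have e3 : Poly (fun x : Inst × List ℕ × List ℕ × List ℕ => x.2.2.1) :=
    Poly.fst (Poly.snd (Poly.snd Poly.id))
  have e4 : Poly (fun x : Inst × List ℕ × List ℕ × List ℕ => x.2.2.2) :=
    Poly.snd (Poly.snd (Poly.snd Poly.id))
  have hn : UPoly (fun x : Inst × List ℕ × List ℕ × List ℕ => x.1.1.length) :=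
    UPoly.length (Poly.fst e1)
  have hle : ∀ {l : Inst × List ℕ × List ℕ × List ℕ → List ℕ}, Poly l →
      Poly (fun x => decide ((l x).length = x.1.1.length) &&
        (l x).all (fun r => decide (r ≤ x.1.1.length))) := fun {l} hl =>
    Poly.and (Poly.decide_eq (Poly.length hl) hn.toPoly)
      (Poly.all (p := fun (x : Inst × List ℕ × List ℕ × List ℕ) r => decide (r ≤ x.1.1.length)) hl
        (Poly.decide_le (Poly.snd Poly.id) (hn.toPoly.comp (Poly.fst Poly.id))))
  unfold vf
  exact Poly.and (poly_isInstB e1) (Poly.and (poly_permB e2 hn) (Poly.and (hle e3)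
    (Poly.and (hle e4) (Poly.and (poly_chkB (Poly.fst e1) e2 e3)
      (poly_chkB (Poly.snd e1) (poly_hus e2 hn) e4)))))

/-- The bound for the certificates. -/
noncomputable def cb : Polynomial ℕ :=
  12 * Polynomial.X ^ 2 + 6 * Polynomial.X + 5

theorem sz_nats {l : List ℕ} {n B : ℕ} (hl : l.length = n) (hB : ∀ x ∈ l, x ≤ B) :
    sz l ≤ n * (4 * B + 2) + 1 := by
  have h1 : ∀ a ∈ l, sz a ≤ 4 * B + 1 := by
    intro a ha
    have h1 := sz_nat_le a
    have h2 := Poly.size_le_self a
    have h3 := hB a ha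
    omega
  have h2 := sz_le_length_mul l _ h1
  rw [hl] at h2
  exact h2

theorem short {I : Inst} {w : List ℕ × List ℕ × List ℕ} (h : vf (I, w) = true) :
    sz w ≤ cb.eval (sz I) := by
  obtain ⟨M, R1, R2⟩ := w
  unfold vf at h
  simp only [Bool.and_eq_true, isInstB_iff, permB_iff, decide_eq_true_iff,
    List.all_eq_true] at h
  obtain ⟨hI, hM, ⟨h1, h1'⟩, ⟨h2, h2'⟩, -⟩ := h
  have hMl : M.length = I.1.length := by rw [hM.length_eq, List.length_range]
  have hMb : ∀ x ∈ M, x ≤ I.1.length := fun x hx => (List.mem_range.1 (hM.mem_iff.1 hx)).le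
  have s1 := sz_nats hMl hMb
  have s2 := sz_nats h1 h1'
  have s3 := sz_nats h2 h2'
  have hn : I.1.length ≤ sz I := by
    obtain ⟨A, B⟩ := I
    have := length_lt_sz A
    rw [sz_pair]
    simp only at this ⊢
    omega
  have hsq : I.1.length * (4 * I.1.length + 2) ≤ sz I * (4 * sz I + 2) :=
    Nat.mul_le_mul hn (by omega)
  have hev : cb.eval (sz I) = 12 * sz I ^ 2 + 6 * sz I + 5 := by
    unfold cb
    simp
  rw [hev, sz_pair, sz_pair]
  have : sz I * (4 * sz I + 2) = 4 * sz I ^ 2 + 2 * sz I := by ring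
  omega

theorem exists_vf_iff (I : Inst) :
    (IsInstance I ∧ ∃ M, CEStable I M) ↔ ∃ w : List ℕ × List ℕ × List ℕ, vf (I, w) = true := by
  constructor
  · rintro ⟨hI, M, hM⟩
    obtain ⟨R1, R2, h⟩ := vf_of_stable hI hM
    exact ⟨(M, R1, R2), h⟩
  · rintro ⟨⟨M, R1, R2⟩, h⟩
    exact ⟨(stable_of_vf h).1, M, (stable_of_vf h).2⟩

theorem inNPP_stable : InNPP (fun I : Inst => IsInstance I ∧ ∃ M, CEStable I M) := by
  refine inNPP_of (R := vf) poly_vf cb ?_
  intro I
  rw [exists_vf_iff]
  exact exists_congr fun w => ⟨fun h => ⟨short h, h⟩, fun h => h.2⟩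

end Pool.Agent.NPC.V8H41CE
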