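import Pool.Agent.V8H41.CE.Core
import Pool.Agent.H632R2.X3C

/-!
# The reduction from exact cover by 3-sets
-/

namespace Pool.Agent.V8H41.CE

open Pool.Agent.NPC.H632 (el X3C X3CPr)

/-- The list with the list `A` first, then `0`, then the other numbers below `n`. -/
def mkL (n : ℕ) (A : List ℕ) : List ℕ :=
  A ++ 0 :: (List.range n).filter (fun x => !decide (x ∈ 0 :: A))

theorem mkL_perm {n : ℕ} {A : List ℕ} (hA : A.Nodup) (h0 : 0 ∉ A) (hn : 0 < n)
    (hlt : ∀ x ∈ A, x < n) : (mkL n A).Perm (List.range n) := by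
  have hnod : (mkL n A).Nodup := by
    unfold mkL
    rw [List.nodup_append]
    refine ⟨hA, ?_, ?_⟩
    · rw [List.nodup_cons]
      exact ⟨by simp, List.nodup_range.filter _⟩
    · intro a ha b hb hab
      subst hab
      rcases List.mem_cons.1 hb with rfl | hb
      · exact h0 ha
      · simp [ha] at hb
  rw [List.perm_ext_iff_of_nodup hnod List.nodup_range]
  intro x
  unfold mkL
  rw [List.mem_append, List.mem_cons, List.mem_filter, List.mem_range]
  constructor
  · rintro (h | rfl | h)
    · exact hlt x h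
    · exact hn
    · exact h.1
  · intro h
    by_cases h1 : x ∈ A
    · exact Or.inl h1
    · by_cases h2 : x = 0
      · exact Or.inr (Or.inl h2)
      · exact Or.inr (Or.inr ⟨h, by simp [h1, h2]⟩)

theorem mkL_pref_mem {n : ℕ} {A : List ℕ} {x y : ℕ} (hx : x ∈ A) (hy : y ∉ A) :
    (mkL n A).idxOf x < (mkL n A).idxOf y := by
  unfold mkL
  rw [List.idxOf_append_of_mem hx, List.idxOf_append_of_notMem hy]
  have := List.idxOf_lt_length_of_mem hx
  omega

theorem mkL_pref_zero {n : ℕ} {A : List ℕ} {y : ℕ} (h0 : 0 ∉ A) (hy : y ∉ A) (hy0 : y ≠ 0) :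
    (mkL n A).idxOf 0 < (mkL n A).idxOf y := by
  unfold mkL
  rw [List.idxOf_append_of_notMem h0, List.idxOf_append_of_notMem hy, List.idxOf_cons_self,
    List.idxOf_cons_ne _ (Ne.symm hy0)]
  omega

theorem pref_getElem {l : List ℕ} (hl : l.Nodup) {i : ℕ} (hi : i < l.length) {x : ℕ}
    (h : l.idxOf x < l.idxOf l[i]) : ∃ j, j < i ∧ l[j]? = some x := by
  rw [hl.idxOf_getElem i hi] at h
  refine ⟨l.idxOf x, h, ?_⟩
  rw [List.getElem?_eq_some_iff]
  exact ⟨h.trans hi, List.getElem_idxOf _⟩

/-! ### Parameters -/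

/-- Number of women of a group. -/
def cN (m : ℕ) : ℕ := 3 * m + 1

/-- Number of gates. -/
def cG (m q : ℕ) : ℕ := (m - q) * cN m

/-- Number of men. -/
def cn (m q : ℕ) : ℕ := 1 + 3 * q + cG m q + m * cN m

/-- The `c`-th component of the triples. -/
def ec (S : List (ℕ × ℕ × ℕ)) (c : ℕ) : ℕ := (el (S.getD (c / 3) (0, 0, 0))).getD (c % 3) 0

/-- The first part of the list of man `a`. -/
def topA (S : List (ℕ × ℕ × ℕ)) (q a : ℕ) : List ℕ :=
  if a = 0 then (List.range (3 * q)).map (fun e => 1 + e)
  else if a ≤ S.length * cN S.length then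
    (List.range (cG S.length q)).map (fun k => 1 + 3 * q + k) ++
      [1 + 3 * q + cG S.length q + (a - 1)]
  else if a ≤ S.length * cN S.length + 3 * S.length then
    (List.range (cN S.length)).map (fun i => 1 + 3 * q + cG S.length q +
      ((a - 1 - S.length * cN S.length) / 3) * cN S.length + i) ++
      [1 + ec S (a - 1 - S.length * cN S.length)]
  else []

/-- The list of man `a`. -/
def ml (S : List (ℕ × ℕ × ℕ)) (q a : ℕ) : List ℕ := mkL (cn S.length q) (topA S q a)

/-- The list of woman `w`. -/
def wl (n w : ℕ) : List ℕ :=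
  if w = 0 then List.range n else (List.range (n - 1)).map (fun i => i + 1) ++ [0]

/-- The instance. -/
def inst (S : List (ℕ × ℕ × ℕ)) (q : ℕ) : Inst :=
  ((List.range (cn S.length q)).map (ml S q), (List.range (cn S.length q)).map (wl (cn S.length q)))

theorem topA_zero (S : List (ℕ × ℕ × ℕ)) (q : ℕ) :
    topA S q 0 = (List.range (3 * q)).map (fun e => 1 + e) := by
  unfold topA
  rw [if_pos rfl]

theorem topA_beta {S : List (ℕ × ℕ × ℕ)} {q u : ℕ} (hu : u < S.length * cN S.length) :
    topA S q (1 + u) = (List.range (cG S.length q)).map (fun k => 1 + 3 * q + k) ++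
      [1 + 3 * q + cG S.length q + u] := by
  unfold topA
  rw [if_neg (by omega), if_pos (by omega)]
  congr 2
  omega

theorem topA_elem {S : List (ℕ × ℕ × ℕ)} {q c : ℕ} (hc : c < 3 * S.length) :
    topA S q (1 + S.length * cN S.length + c) =
      (List.range (cN S.length)).map (fun i => 1 + 3 * q + cG S.length q +
      (c / 3) * cN S.length + i) ++ [1 + ec S c] := by
  unfold topA
  rw [if_neg (by omega), if_neg (by omega), if_pos (by omega)]
  have : 1 + S.length * cN S.length + c - 1 - S.length * cN S.length = c := by omega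
  rw [this]

theorem topA_dummy {S : List (ℕ × ℕ × ℕ)} {q a : ℕ}
    (ha : S.length * cN S.length + 3 * S.length < a) : topA S q a = [] := by
  unfold topA
  rw [if_neg (by omega), if_neg (by omega), if_neg (by omega)]

/-- Case distinction on the men. -/
theorem man_cases (S : List (ℕ × ℕ × ℕ)) (a : ℕ) : a = 0 ∨
    (∃ u, u < S.length * cN S.length ∧ a = 1 + u) ∨
    (∃ c, c < 3 * S.length ∧ a = 1 + S.length * cN S.length + c) ∨
    S.length * cN S.length + 3 * S.length < a := by
  by_cases h0 : a = 0
  · exact Or.inl h0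
  · right
    by_cases h1 : a ≤ S.length * cN S.length
    · exact Or.inl ⟨a - 1, by omega, by omega⟩
    · right
      by_cases h2 : a ≤ S.length * cN S.length + 3 * S.length
      · exact Or.inl ⟨a - 1 - S.length * cN S.length, by omega, by omega⟩
      · exact Or.inr (by omega)

/-- The promise: the components are below `3q`, and `1 ≤ q ≤ m`. -/
structure Pm (S : List (ℕ × ℕ × ℕ)) (q : ℕ) : Prop where
  ec_lt : ∀ c, c < 3 * S.length → ec S c < 3 * q
  one_le : 1 ≤ q
  le_len : q ≤ S.length

theorem pm_of {S : List (ℕ × ℕ × ℕ)} {q : ℕ} (h : X3CPr (S, q)) : Pm S q := by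
  obtain ⟨h1, h2, h3⟩ := h
  refine ⟨fun c hc => ?_, h2, h3⟩
  have hj : c / 3 < S.length := by omega
  unfold ec
  rw [List.getD_eq_getElem _ _ hj]
  have hr : c % 3 < (el S[c / 3]).length := by
    have : (el S[c / 3]).length = 3 := rfl
    omega
  rw [List.getD_eq_getElem _ _ hr]
  exact (h1 _ (List.getElem_mem hj)).2 _ (List.getElem_mem hr)

theorem zero_notMem_topA (S : List (ℕ × ℕ × ℕ)) (q a : ℕ) : 0 ∉ topA S q a := by
  unfold topA
  split_ifs <;> simp <;> omega

theorem group_lt {m c N : ℕ} (hc : c < 3 * m) {i : ℕ} (hi : i < N) : c / 3 * N + i < m * N := by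
  have h1 : c / 3 + 1 ≤ m := by omega
  have h2 := Nat.mul_le_mul_right N h1
  rw [Nat.add_mul, Nat.one_mul] at h2
  omega

theorem topA_lt {S : List (ℕ × ℕ × ℕ)} {q : ℕ} (h : Pm S q) (a x : ℕ) (hx : x ∈ topA S q a) :
    x < cn S.length q := by
  unfold cn
  rcases man_cases S a with rfl | ⟨u, hu, rfl⟩ | ⟨c, hc, rfl⟩ | ha
  · rw [topA_zero, List.mem_map] at hx
    obtain ⟨e, he, rfl⟩ := hx
    rw [List.mem_range] at he
    omega
  · rw [topA_beta hu, List.mem_append, List.mem_map, List.mem_singleton] at hx
    rcases hx with ⟨k, hk, rfl⟩ | rfl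
    · rw [List.mem_range] at hk
      omega
    · omega
  · rw [topA_elem hc, List.mem_append, List.mem_map, List.mem_singleton] at hx
    rcases hx with ⟨i, hi, rfl⟩ | rfl
    · rw [List.mem_range] at hi
      have := group_lt hc hi
      omega
    · have := h.ec_lt c hc
      omega
  · rw [topA_dummy ha] at hx
    simp at hx

theorem topA_nodup {S : List (ℕ × ℕ × ℕ)} {q : ℕ} (h : Pm S q) (a : ℕ) : (topA S q a).Nodup := by
  rcases man_cases S a with rfl | ⟨u, hu, rfl⟩ | ⟨c, hc, rfl⟩ | ha
  · rw [topA_zero]
    exact List.nodup_range.map (fun a b hab => by omega)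
  · rw [topA_beta hu, List.nodup_append]
    refine ⟨List.nodup_range.map (fun a b hab => by omega),
      List.nodup_singleton _, ?_⟩
    intro x hx y hy hxy
    rw [List.mem_map] at hx
    obtain ⟨k, hk, rfl⟩ := hx
    rw [List.mem_range] at hk
    rw [List.mem_singleton] at hy
    omega
  · rw [topA_elem hc, List.nodup_append]
    refine ⟨List.nodup_range.map (fun a b hab => by omega),
      List.nodup_singleton _, ?_⟩
    intro x hx y hy hxy
    rw [List.mem_map] at hx
    obtain ⟨k, hk, rfl⟩ := hx
    rw [List.mem_singleton] at hy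
    have := h.ec_lt c hc
    omega
  · rw [topA_dummy ha]
    exact List.nodup_nil

theorem ml_perm {S : List (ℕ × ℕ × ℕ)} {q : ℕ} (h : Pm S q) (a : ℕ) :
    (ml S q a).Perm (List.range (cn S.length q)) :=
  mkL_perm (topA_nodup h a) (zero_notMem_topA S q a) (by unfold cn; omega) (topA_lt h a)

theorem wl_perm {n : ℕ} (hn : 0 < n) (w : ℕ) : (wl n w).Perm (List.range n) := by
  unfold wl
  split_ifs
  · exact List.Perm.refl _
  · have hnod : ((List.range (n - 1)).map (fun i => i + 1) ++ [0]).Nodup := by
      rw [List.nodup_append]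
      refine ⟨List.nodup_range.map (fun a b hab => by omega),
        List.nodup_singleton _, ?_⟩
      intro x hx y hy hxy
      rw [List.mem_map] at hx
      obtain ⟨k, hk, rfl⟩ := hx
      rw [List.mem_singleton] at hy
      omega
    rw [List.perm_ext_iff_of_nodup hnod List.nodup_range]
    intro x
    rw [List.mem_append, List.mem_map, List.mem_singleton, List.mem_range]
    constructor
    · rintro (⟨k, hk, rfl⟩ | rfl)
      · rw [List.mem_range] at hk
        omega
      · exact hn
    · intro hx
      by_cases h0 : x = 0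
      · exact Or.inr h0
      · exact Or.inl ⟨x - 1, List.mem_range.2 (by omega), by omega⟩

theorem isInstance_inst {S : List (ℕ × ℕ × ℕ)} {q : ℕ} (h : Pm S q) : IsInstance (inst S q) := by
  have hn : 0 < cn S.length q := by unfold cn; omega
  unfold IsInstance inst
  simp only [List.length_map, List.length_range, List.mem_map, forall_exists_index, and_imp,
    forall_apply_eq_imp_iff₂, true_and]
  exact ⟨fun a _ => ml_perm h a, fun a _ => wl_perm hn a⟩

theorem prefers_inst {S : List (ℕ × ℕ × ℕ)} {q a x y : ℕ} (ha : a < cn S.length q) :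
    Prefers (inst S q).1 a x y ↔ (ml S q a).idxOf x < (ml S q a).idxOf y := by
  unfold Prefers inst
  dsimp only
  rw [List.getD_eq_getElem _ _ (by simpa using ha), List.getElem_map, List.getElem_range]

theorem prefers_inst' {S : List (ℕ × ℕ × ℕ)} {q a x y : ℕ} (ha : a < cn S.length q) :
    Prefers (inst S q).2 a x y ↔
      (wl (cn S.length q) a).idxOf x < (wl (cn S.length q) a).idxOf y := by
  unfold Prefers inst
  dsimp only
  rw [List.getD_eq_getElem _ _ (by simpa using ha), List.getElem_map, List.getElem_range]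

theorem idxOf_wl {n w x : ℕ} (hw : w ≠ 0) (hx0 : x ≠ 0) (hx : x < n) :
    (wl n w).idxOf x = x - 1 := by
  have hn : 0 < n := by omega
  have hnod : (wl n w).Nodup := (wl_perm hn w).nodup_iff.2 List.nodup_range
  have hlen : (wl n w).length = n := by rw [(wl_perm hn w).length_eq, List.length_range]
  have h1 : (wl n w)[x - 1]'(by omega) = x := by
    unfold wl
    simp only [if_neg hw]
    rw [List.getElem_append_left (by simp; omega), List.getElem_map, List.getElem_range]
    omega
  have h2 := hnod.idxOf_getElem (x - 1) (by omega)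
  rw [h1] at h2
  exact h2

theorem idxOf_wl_zero {n w : ℕ} (hw : w ≠ 0) (hn : 0 < n) : (wl n w).idxOf 0 = n - 1 := by
  have hnod : (wl n w).Nodup := (wl_perm hn w).nodup_iff.2 List.nodup_range
  have hlen : (wl n w).length = n := by rw [(wl_perm hn w).length_eq, List.length_range]
  have h1 : (wl n w)[n - 1]'(by omega) = 0 := by
    unfold wl
    simp only [if_neg hw]
    rw [List.getElem_append_right (by simp)]
    simp
  have h2 := hnod.idxOf_getElem (n - 1) (by omega)
  rw [h1] at h2
  exact h2

end Pool.Agent.V8H41.CE
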