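import Pool.Agent.V8H41.CE.Mem

/-!
# The reduction in polynomial time, and the search problem
-/

namespace Pool.Agent.NPC.V8H41CE

open Pool.Agent.NPC Pool.Agent.V8H41.CE Pool.Agent.NPC.H612 Pool.Agent.NPC.H632
open Pool.Agent.H673R2 Pool.Agent.NPC.R671 Pool.Agent.H622R2

section

variable {α : Type} [TEnc α]

theorem poly_mkL {n : α → ℕ} {A : α → List ℕ} (hn : UPoly n) (hA : Poly A) :
    Poly (fun a => mkL (n a) (A a)) := by
  unfold mkL
  refine Poly.append hA (Poly.cons (Poly.const 0) ?_)
  refine Poly.filter (p := fun a x => !decide (x ∈ 0 :: A a)) hn.range (Poly.not ?_)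
  exact Poly.dec_mem (Poly.snd Poly.id)
    (Poly.cons (Poly.const 0) (hA.comp (Poly.fst Poly.id)))

theorem upoly_cN {m : α → ℕ} (hm : UPoly m) : UPoly (fun a => cN (m a)) :=
  UPoly.add (UPoly.mul (UPoly.const 3) hm) (UPoly.const 1)

theorem upoly_cG {m q : α → ℕ} (hm : UPoly m) (hq : UPoly q) : UPoly (fun a => cG (m a) (q a)) :=
  UPoly.mul (UPoly.of_le (Poly.sub hm.toPoly hq.toPoly) hm fun a => Nat.sub_le _ _)
    (upoly_cN hm)

theorem upoly_cn {m q : α → ℕ} (hm : UPoly m) (hq : UPoly q) : UPoly (fun a => cn (m a) (q a)) :=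
  UPoly.add (UPoly.add (UPoly.add (UPoly.const 1) (UPoly.mul (UPoly.const 3) hq))
    (upoly_cG hm hq)) (UPoly.mul hm (upoly_cN hm))

theorem poly_el {t : α → ℕ × ℕ × ℕ} (ht : Poly t) : Poly (fun a => el (t a)) :=
  Poly.cons (Poly.fst ht) (Poly.cons (Poly.fst (Poly.snd ht)) (Poly.cons (Poly.snd (Poly.snd ht))
    (Poly.const [])))

theorem poly_ec {S : α → List (ℕ × ℕ × ℕ)} {c : α → ℕ} (hS : Poly S) (hc : Poly c) :
    Poly (fun a => ec (S a) (c a)) := by
  unfold ec
  exact Poly.getD (poly_el (Poly.getD hS (Poly.div hc (Poly.const 3)) (Poly.const (0, 0, 0))))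
    (Poly.mod hc (Poly.const 3)) (Poly.const 0)

theorem poly_topA {S : α → List (ℕ × ℕ × ℕ)} {q a : α → ℕ} (hS : Poly S) (hq : UPoly q)
    (ha : Poly a) : Poly (fun t => topA (S t) (q t) (a t)) := by
  unfold topA
  have hm : UPoly (fun t => (S t).length) := UPoly.length hS
  have hN := upoly_cN hm
  have hG := upoly_cG hm hq
  have h3q : UPoly (fun t => 3 * q t) := UPoly.mul (UPoly.const 3) hq
  have hmN := (UPoly.mul hm hN).toPoly
  have f1 : ∀ {f : α → ℕ}, Poly f → Poly (fun y : α × ℕ => f y.1) := fun hf =>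
    hf.comp (Poly.fst Poly.id)
  have f2 : Poly (fun y : α × ℕ => y.2) := Poly.snd Poly.id
  refine Poly.ite (Poly.decide_eq ha (Poly.const 0)) ?_ (Poly.ite (Poly.decide_le ha hmN) ?_
    (Poly.ite (Poly.decide_le ha (Poly.add hmN (Poly.mul (Poly.const 3) hm.toPoly))) ?_
      (Poly.const [])))
  · exact Poly.map (F := fun _ e => 1 + e) h3q.range (Poly.add (Poly.const 1) f2)
  · refine Poly.append ?_ ?_
    · refine Poly.map (F := fun t k => 1 + 3 * q t + k) hG.range ?_
      exact Poly.add (Poly.add (Poly.const 1) (f1 h3q.toPoly)) f2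
    · exact Poly.cons (Poly.add (Poly.add (Poly.add (Poly.const 1) h3q.toPoly) hG.toPoly)
        (Poly.sub ha (Poly.const 1))) (Poly.const [])
  · have hc : Poly (fun t => a t - 1 - (S t).length * cN (S t).length) :=
      Poly.sub (Poly.sub ha (Poly.const 1)) hmN
    refine Poly.append ?_ ?_
    · refine Poly.map (F := fun t i => 1 + 3 * q t + cG (S t).length (q t) +
        ((a t - 1 - (S t).length * cN (S t).length) / 3) * cN (S t).length + i) hN.range ?_
      have g : Poly (fun t => 1 + 3 * q t + cG (S t).length (q t) +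
        ((a t - 1 - (S t).length * cN (S t).length) / 3) * cN (S t).length) :=
        Poly.add (Poly.add (Poly.add (Poly.const 1) h3q.toPoly) hG.toPoly)
          (Poly.mul (Poly.div hc (Poly.const 3)) hN.toPoly)
      exact Poly.add (f1 g) f2
    · exact Poly.cons (Poly.add (Poly.const 1) (poly_ec hS hc)) (Poly.const [])

theorem poly_wl {n w : α → ℕ} (hn : UPoly n) (hw : Poly w) :
    Poly (fun a => wl (n a) (w a)) := by
  unfold wl
  have hn1 : UPoly (fun a => n a - 1) :=
    UPoly.of_le (Poly.sub hn.toPoly (Poly.const 1)) hn fun a => Nat.sub_le _ _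
  refine Poly.ite (Poly.decide_eq hw (Poly.const 0)) hn.range (Poly.append ?_ (Poly.const _))
  exact Poly.map (F := fun _ i => i + 1) hn1.range (Poly.add (Poly.snd Poly.id) (Poly.const 1))

theorem poly_inst {S : α → List (ℕ × ℕ × ℕ)} {q : α → ℕ} (hS : Poly S) (hq : UPoly q) :
    Poly (fun t => inst (S t) (q t)) := by
  have hm : UPoly (fun t => (S t).length) := UPoly.length hS
  have hn := upoly_cn hm hq
  refine Poly.pair ?_ ?_
  · refine Poly.map (F := fun t a => ml (S t) (q t) a) hn.range ?_
    exact poly_mkL (hn.comp (Poly.fst Poly.id)) (poly_topA (hS.comp (Poly.fst Poly.id))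
      (hq.comp (Poly.fst Poly.id)) (Poly.snd Poly.id))
  · refine Poly.map (F := fun t a => wl (cn (S t).length (q t)) a) hn.range ?_
    exact poly_wl (hn.comp (Poly.fst Poly.id)) (Poly.snd Poly.id)

end

/-- The reduction. -/
def red (I : List (ℕ × ℕ × ℕ) × ℕ) : Inst := inst I.1 (min I.2 I.1.length)

theorem poly_red : Poly red := by
  have hS : Poly (fun I : List (ℕ × ℕ × ℕ) × ℕ => I.1) := Poly.fst Poly.id
  refine poly_inst hS (UPoly.of_le ?_ (UPoly.length hS) fun I => min_le_right _ _)
  exact Poly.min (Poly.snd Poly.id) (Poly.length hS)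

theorem hard : NPHardOn IsInstance (fun I : Inst => ∃ M : List ℕ, CEStable I M) := by
  refine npHardOn_of hardPr_X3C poly_red ?_ ?_
  · rintro ⟨S, q⟩ hI
    have hP := pm_of hI
    have : min q S.length = q := min_eq_left hP.le_len
    unfold red
    dsimp only
    rw [this]
    exact isInstance_inst hP
  · rintro ⟨S, q⟩ hI
    have hP := pm_of hI
    have : min q S.length = q := min_eq_left hP.le_len
    unfold red
    dsimp only
    rw [this]
    exact (stable_iff hP).symm

/-- If `P = NP`, the search problem can be solved in polynomial time. -/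
theorem search_of (h : ¬ PneNP) :
    ∃ f : List Bool → List Bool, PolyTime f ∧ SolvesSearch IsInstance CEStable f := by
  have h' : ∀ L : Set (List Bool), InNP L → InP L := by
    intro L hL
    by_contra hcon
    exact h ⟨L, hL, fun ⟨V, hV, hV'⟩ => hcon ⟨V, hV, hV'⟩⟩
  obtain ⟨A, hA, hAs⟩ := search_of_collapse poly_vf cb (fun a b h => short h) h'
  let g : List Bool → Option (List ℕ) := fun x =>
    (unbits Inst x).bind fun I =>
      (unbits (List ℕ × List ℕ × List ℕ) (A x)).bind fun w =>
        if vf (I, w) = true then some w.1 else none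
  have hA' := poly_of_polyTime hA
  have hg : Poly g := by
    refine Poly.optBind (f := fun x I => (unbits (List ℕ × List ℕ × List ℕ) (A x)).bind fun w =>
        if vf (I, w) = true then some w.1 else none) poly_unbits ?_
    refine Poly.optBind (o := fun p : List Bool × Inst =>
      unbits (List ℕ × List ℕ × List ℕ) (A p.1)) (f := fun p w =>
        if vf (p.2, w) = true then some w.1 else none)
        (poly_unbits.comp (hA'.comp (Poly.fst Poly.id))) ?_
    have e : Poly (fun p : (List Bool × Inst) × (List ℕ × List ℕ × List ℕ) =>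
        vf (p.1.2, p.2)) :=
      poly_vf.comp (Poly.pair (Poly.snd (Poly.fst Poly.id)) (Poly.snd Poly.id))
    exact Poly.ite (Poly.dec_eq e (Poly.const true)) (Poly.some (Poly.fst (Poly.snd Poly.id)))
      (Poly.const none)
  refine ⟨fun x => bits (g x), polyTime_of_poly_list (poly_bits.comp hg), ?_⟩
  intro I hI
  by_cases hex : ∃ M, CEStable I M
  · obtain ⟨w, hw, hAw⟩ := hAs I ((exists_vf_iff I).1 ⟨hI, hex⟩)
    left
    refine ⟨w.1, ?_, (stable_of_vf (I := I) (M := w.1) (R1 := w.2.1) (R2 := w.2.2) hw).2⟩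
    simp only [g, unbits_bits, Option.bind_some, hAw, hw, if_true]
  · right
    push Not at hex
    refine ⟨?_, hex⟩
    have : g (bits I) = none := by
      simp only [g, unbits_bits, Option.bind_some]
      rw [Option.bind_eq_none_iff]
      intro w _
      rw [if_neg]
      intro hw
      exact hex w.1 (stable_of_vf (I := I) (M := w.1) (R1 := w.2.1) (R2 := w.2.2) hw).2
    simp only [this]

theorem search_iff :
    (∃ f : List Bool → List Bool, PolyTime f ∧ SolvesSearch IsInstance CEStable f) ↔
      ∀ L : Set (List Bool), InNP L → InP L := by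
  constructor
  · intro hf
    by_contra hcon
    push Not at hcon
    obtain ⟨L, hL, hL'⟩ := hcon
    exact no_search hard ⟨L, hL, fun ⟨V, hV, hV'⟩ => hL' ⟨V, hV, hV'⟩⟩ hf
  · intro h
    refine search_of ?_
    rintro ⟨L, hL, hL'⟩
    obtain ⟨V, hV, hV'⟩ := h L hL
    exact hL' ⟨V, hV, hV'⟩

end Pool.Agent.NPC.V8H41CE
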